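import Mathlib

/-
Closure properties of Diophantine conditions over a field with a family of parameters.
-/

namespace Pool.Agent.MP_28f2cb_lc.H93

variable {K : Type*} [Field K] {ι : Type}

/-- polynomial functions with integer coefficients and the parameters `t i`. -/
def PF (t : ι → K) (σ : Type) : Subring ((σ → K) → K) :=
  Subring.closure (Set.range (fun i _ => t i) ∪ Set.range fun i v => v i)

section
variable {t : ι → K} {σ τ : Type}

theorem PF.par (i : ι) : (fun _ => t i) ∈ PF t σ := Subring.subset_closure (Or.inl ⟨i, rfl⟩)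

theorem PF.var (i : σ) : (fun v => v i) ∈ PF t σ := Subring.subset_closure (Or.inr ⟨i, rfl⟩)

theorem PF.zero : (fun _ => 0) ∈ PF t σ := (PF t σ).zero_mem

theorem PF.add {f g : (σ → K) → K} (hf : f ∈ PF t σ) (hg : g ∈ PF t σ) :
    (fun v => f v + g v) ∈ PF t σ := add_mem hf hg

theorem PF.sub {f g : (σ → K) → K} (hf : f ∈ PF t σ) (hg : g ∈ PF t σ) :
    (fun v => f v - g v) ∈ PF t σ := sub_mem hf hg

theorem PF.mul {f g : (σ → K) → K} (hf : f ∈ PF t σ) (hg : g ∈ PF t σ) :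
    (fun v => f v * g v) ∈ PF t σ := mul_mem hf hg

theorem PF.pow {f : (σ → K) → K} (hf : f ∈ PF t σ) (n : ℕ) :
    (fun v => f v ^ n) ∈ PF t σ := pow_mem hf n

theorem PF.sum {κ : Type*} (s : Finset κ) {f : κ → (σ → K) → K} (hf : ∀ i ∈ s, f i ∈ PF t σ) :
    (fun v => ∑ i ∈ s, f i v) ∈ PF t σ := by
  have := sum_mem hf
  convert this using 1
  funext v
  simp

theorem PF.prod {κ : Type*} (s : Finset κ) {f : κ → (σ → K) → K} (hf : ∀ i ∈ s, f i ∈ PF t σ) :
    (fun v => ∏ i ∈ s, f i v) ∈ PF t σ := by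
  have := prod_mem hf
  convert this using 1
  funext v
  simp

theorem PF.comp {φ : (σ → K) → K} (h : φ ∈ PF t σ) {f : σ → (τ → K) → K}
    (hf : ∀ i, f i ∈ PF t τ) : (fun v => φ fun i => f i v) ∈ PF t τ := by
  induction h using Subring.closure_induction with
  | mem x hx =>
    rcases hx with ⟨i, rfl⟩ | ⟨i, rfl⟩
    · exact PF.par i
    · exact hf i
  | zero => exact zero_mem _
  | one => exact one_mem _
  | add x y _ _ hx hy => exact add_mem hx hy
  | neg x _ hx => exact neg_mem hx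
  | mul x y _ _ hx hy => exact mul_mem hx hy

theorem PF.poly {φ : (σ → K) → K} (h : φ ∈ PF t σ) :
    ∃ P : MvPolynomial (ι ⊕ σ) ℤ, ∀ w : σ → K, MvPolynomial.aeval (Sum.elim t w) P = φ w := by
  induction h using Subring.closure_induction with
  | mem x hx =>
    rcases hx with ⟨i, rfl⟩ | ⟨i, rfl⟩
    · exact ⟨MvPolynomial.X (.inl i), fun w => by simp⟩
    · exact ⟨MvPolynomial.X (.inr i), fun w => by simp⟩
  | zero => exact ⟨0, fun w => by simp⟩
  | one => exact ⟨1, fun w => by simp⟩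
  | add x y _ _ hx hy =>
    obtain ⟨P, hP⟩ := hx
    obtain ⟨Q, hQ⟩ := hy
    exact ⟨P + Q, fun w => by rw [map_add, hP w, hQ w]; rfl⟩
  | neg x _ hx =>
    obtain ⟨P, hP⟩ := hx
    exact ⟨-P, fun w => by rw [map_neg, hP w]; rfl⟩
  | mul x y _ _ hx hy =>
    obtain ⟨P, hP⟩ := hx
    obtain ⟨Q, hQ⟩ := hy
    exact ⟨P * Q, fun w => by rw [map_mul, hP w, hQ w]; rfl⟩

theorem PF.map {E : Type*} [Field E] (f : E →+* K) {s : ι → E} {φ : (σ → E) → E}
    (h : φ ∈ PF s σ) : ∃ ψ ∈ PF (fun i => f (s i)) σ, ∀ v, ψ (fun i => f (v i)) = f (φ v) := by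
  induction h using Subring.closure_induction with
  | mem x hx =>
    rcases hx with ⟨i, rfl⟩ | ⟨i, rfl⟩
    · exact ⟨_, PF.par i, fun _ => rfl⟩
    · exact ⟨_, PF.var i, fun _ => rfl⟩
  | zero => exact ⟨0, zero_mem _, fun _ => by simp⟩
  | one => exact ⟨1, one_mem _, fun _ => by simp⟩
  | add x y _ _ hx hy =>
    obtain ⟨P, hP, h1⟩ := hx
    obtain ⟨Q, hQ, h2⟩ := hy
    exact ⟨P + Q, add_mem hP hQ, fun v => by rw [Pi.add_apply, h1, h2, ← map_add]; rfl⟩
  | neg x _ hx =>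
    obtain ⟨P, hP, h1⟩ := hx
    exact ⟨-P, neg_mem hP, fun v => by rw [Pi.neg_apply, h1, ← map_neg]; rfl⟩
  | mul x y _ _ hx hy =>
    obtain ⟨P, hP, h1⟩ := hx
    obtain ⟨Q, hQ, h2⟩ := hy
    exact ⟨P * Q, mul_mem hP hQ, fun v => by rw [Pi.mul_apply, h1, h2, ← map_mul]; rfl⟩

end

/-- Diophantine conditions with the parameters `t i`. -/
def Dp (t : ι → K) (α : Type) (S : (α → K) → Prop) : Prop :=
  ∃ (β : Type) (_ : Finite β) (φ : (α ⊕ β → K) → K), φ ∈ PF t (α ⊕ β) ∧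
    ∀ x, S x ↔ ∃ y : β → K, φ (Sum.elim x y) = 0

/-- an anisotropic binary form among the parameters. -/
def An (t : ι → K) : Prop :=
  ∃ (q : ℕ) (i : ι), ∀ a b : K, a ^ q - t i * b ^ q = 0 ↔ a = 0 ∧ b = 0

section
variable {t : ι → K} {α γ : Type}

theorem Dp.congr {S S' : (α → K) → Prop} (h : Dp t α S) (e : ∀ x, S' x ↔ S x) : Dp t α S' := by
  obtain ⟨β, hβ, φ, hφ, h⟩ := h
  exact ⟨β, hβ, φ, hφ, fun x => (e x).trans (h x)⟩

theorem Dp.eq {f g : (α → K) → K} (hf : f ∈ PF t α) (hg : g ∈ PF t α) :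
    Dp t α fun x => f x = g x :=
  ⟨Empty, inferInstance, fun v => f (fun i => v (.inl i)) - g fun i => v (.inl i),
    PF.sub (PF.comp hf fun _ => PF.var _) (PF.comp hg fun _ => PF.var _), fun _ =>
      ⟨fun h => ⟨Empty.elim, sub_eq_zero.2 h⟩, fun ⟨_, h⟩ => sub_eq_zero.1 h⟩⟩

theorem Dp.comp {S : (γ → K) → Prop} (h : Dp t γ S) {f : γ → (α → K) → K}
    (hf : ∀ i, f i ∈ PF t α) : Dp t α fun x => S fun i => f i x := by
  obtain ⟨β, hβ, φ, hφ, h⟩ := h
  refine ⟨β, hβ, fun v => φ fun i => Sum.elim (fun c (w : α ⊕ β → K) => f c fun a => w (.inl a))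
    (fun b w => w (.inr b)) i v, PF.comp hφ ?_, fun x => (h _).trans (exists_congr fun y => ?_)⟩
  · rintro (c | b)
    · exact PF.comp (hf c) fun _ => PF.var _
    · exact PF.var _
  · refine iff_of_eq (congrArg (fun z => φ z = 0) ?_)
    funext i
    cases i <;> rfl

theorem Dp.ex [Finite γ] {S : (α ⊕ γ → K) → Prop} (h : Dp t (α ⊕ γ) S) :
    Dp t α fun x => ∃ z : γ → K, S (Sum.elim x z) := by
  obtain ⟨β, hβ, φ, hφ, h⟩ := h
  refine ⟨γ ⊕ β, inferInstance, fun v => φ fun i => v (Equiv.sumAssoc α γ β i),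
    PF.comp hφ fun _ => PF.var _, fun x => ⟨?_, ?_⟩⟩
  · rintro ⟨z, hz⟩
    obtain ⟨y, hy⟩ := (h _).1 hz
    refine ⟨Sum.elim z y, Eq.trans (congrArg φ ?_) hy⟩
    funext i
    rcases i with (i | i) | i <;> rfl
  · rintro ⟨y, hy⟩
    refine ⟨fun c => y (.inl c), (h _).2 ⟨fun b => y (.inr b), Eq.trans (congrArg φ ?_) hy⟩⟩
    funext i
    rcases i with (i | i) | i <;> rfl

theorem Dp.and (hq : An t)
    {S S' : (α → K) → Prop} (h : Dp t α S) (h' : Dp t α S') : Dp t α fun x => S x ∧ S' x := by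
  obtain ⟨q, i0, hq⟩ := hq
  obtain ⟨β, hβ, φ, hφ, h⟩ := h
  obtain ⟨β', hβ', φ', hφ', h'⟩ := h'
  refine ⟨β ⊕ β', inferInstance, fun v => (φ fun i => v (Sum.map id .inl i)) ^ q -
      t i0 * (φ' fun i => v (Sum.map id .inr i)) ^ q,
    PF.sub (PF.pow (PF.comp hφ fun _ => PF.var _) q)
      (PF.mul (PF.par i0) (PF.pow (PF.comp hφ' fun _ => PF.var _) q)), fun x => ?_⟩
  simp only [hq, h, h']
  constructor
  · rintro ⟨⟨y, hy⟩, y', hy'⟩
    refine ⟨Sum.elim y y', Eq.trans (congrArg φ ?_) hy, Eq.trans (congrArg φ' ?_) hy'⟩ <;>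
    · funext i
      cases i <;> rfl
  · rintro ⟨y, hy, hy'⟩
    refine ⟨⟨fun b => y (.inl b), Eq.trans (congrArg φ ?_) hy⟩,
      fun b => y (.inr b), Eq.trans (congrArg φ' ?_) hy'⟩ <;>
    · funext i
      cases i <;> rfl

theorem Dp.all (hq : An t) {κ : Type*}
    (s : Finset κ) {S : κ → (α → K) → Prop} (h : ∀ i, Dp t α (S i)) :
    Dp t α fun x => ∀ i ∈ s, S i x := by
  classical
  induction s using Finset.induction_on with
  | empty => exact (Dp.eq PF.zero PF.zero).congr fun x => by simp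
  | insert a s _ ih => exact (Dp.and hq (h a) ih).congr fun x => by simp

/-- relativisation to a Diophantine subfield. -/
theorem Dp.rel {E : Type*} [Field E] (f : E →+* K) {s : ι → E} (hq : An fun i => f (s i))
    (hE : Dp (fun i => f (s i)) Unit fun x => x () ∈ f.range) {S : E → Prop}
    (h : Dp s Unit fun x => S (x ())) :
    Dp (fun i => f (s i)) Unit fun x => ∃ z, f z = x () ∧ S z := by
  obtain ⟨β, hβ, φ, hφ, h⟩ := h
  have := Fintype.ofFinite β
  obtain ⟨ψ, hψ, h1⟩ := PF.map f hφ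
  have h2 : Dp (fun i => f (s i)) (Unit ⊕ β) fun v =>
      (∀ i ∈ Finset.univ, v i ∈ f.range) ∧ ψ v = 0 :=
    Dp.and hq (Dp.all hq Finset.univ fun i => hE.comp (f := fun _ v => v i) fun _ => PF.var i)
      (Dp.eq hψ PF.zero)
  refine h2.ex.congr fun x => ⟨?_, ?_⟩
  · rintro ⟨z, hz, hS⟩
    obtain ⟨y, hy⟩ := (h fun _ => z).1 hS
    have e : Sum.elim x (fun b => f (y b)) = fun i => f (Sum.elim (fun _ => z) y i) := by
      funext i
      rcases i with i | i
      exacts [hz.symm, rfl]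
    refine ⟨fun b => f (y b), fun i _ => ?_, ?_⟩
    · rw [e]; exact ⟨_, rfl⟩
    · rw [e, h1, hy, map_zero]
  · rintro ⟨y, hy, hy2⟩
    choose w hw using fun i => hy i (Finset.mem_univ i)
    refine ⟨w (.inl ()), hw _, (h fun _ => w (.inl ())).2 ⟨fun b => w (.inr b), ?_⟩⟩
    have e : Sum.elim (fun _ => w (.inl ())) (fun b => w (.inr b)) = w := by
      funext i
      rcases i with i | i <;> rfl
    apply f.injective
    rw [e, ← h1, map_zero, ← hy2]
    exact congrArg ψ (funext hw)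

theorem Dp.out {S : K → Prop} (h : Dp t Unit fun x => S (x ())) :
    ∃ (n : ℕ) (P : MvPolynomial (ι ⊕ Option (Fin n)) ℤ), ∀ x : K, S x ↔ ∃ y : Fin n → K,
      MvPolynomial.aeval (Sum.elim t fun o => Option.elim o x y) P = 0 := by
  obtain ⟨β, hβ, φ, hφ, h⟩ := h
  obtain ⟨n, ⟨e⟩⟩ := Finite.exists_equiv_fin β
  obtain ⟨P, hP⟩ := PF.poly (PF.comp hφ (τ := Option (Fin n))
    (f := fun i v => v (Sum.elim (fun _ => none) (fun b => some (e b)) i)) fun _ => PF.var _)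
  refine ⟨n, P, fun x => (h fun _ => x).trans ⟨?_, ?_⟩⟩
  · rintro ⟨y, hy⟩
    refine ⟨fun i => y (e.symm i), ?_⟩
    rw [hP]
    refine Eq.trans (congrArg φ ?_) hy
    funext i
    cases i <;> simp
  · rintro ⟨y, hy⟩
    rw [hP] at hy
    refine ⟨fun b => y (e b), Eq.trans (congrArg φ ?_) hy⟩
    funext i
    cases i <;> simp

end

end Pool.Agent.MP_28f2cb_lc.H93
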