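import Pool.Agent.MP_28f2cb_lc.H94.Der
import Pool.Agent.MP_28f2cb_lc.H93.Dio

/-
Partial derivatives, their common kernel, and the total degree valuation.
-/

namespace Pool.Agent.MP_28f2cb_lc.H93

open WithZero

section
open Polynomial

variable {K : Type*} [Field K] {σ : Type}

/-- the field generated by the `q`-th powers and the `t i` with `i` in `s`. -/
def gen (q : ℕ) (t : σ → K) (s : Set σ) : Subfield K :=
  Subfield.closure (Set.range (fun x : K => x ^ q) ∪ t '' s)

theorem pow_mem_gen (q : ℕ) (t : σ → K) (s : Set σ) (x : K) : x ^ q ∈ gen q t s :=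
  Subfield.subset_closure (Or.inl ⟨x, rfl⟩)

theorem par_mem_gen (q : ℕ) (t : σ → K) {s : Set σ} {i : σ} (hi : i ∈ s) : t i ∈ gen q t s :=
  Subfield.subset_closure (Or.inr ⟨i, hi, rfl⟩)

theorem gen_mono (q : ℕ) (t : σ → K) {s s' : Set σ} (h : s ⊆ s') : gen q t s ≤ gen q t s' :=
  Subfield.closure_mono (Set.union_subset_union_right _ (Set.image_mono h))

theorem gen_empty (p n : ℕ) [Fact p.Prime] [CharP K p] (t : σ → K) {y : K}
    (hy : y ∈ gen (p ^ n) t ∅) : ∃ x, x ^ p ^ n = y := by
  have h : gen (p ^ n) t ∅ ≤ (iterateFrobenius K p n).fieldRange := by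
    refine Subfield.closure_le.2 ?_
    rintro _ (⟨x, rfl⟩ | ⟨i, hi, -⟩)
    · exact ⟨x, rfl⟩
    · exact hi.elim
  exact h hy

theorem gen_insert {q : ℕ} (hq : q ≠ 0) (t : σ → K) (s : Set σ) (i : σ) {y : K}
    (hy : y ∈ gen q t (insert i s)) :
    ∃ f : (gen q t s)[X], f.natDegree < q ∧ aeval (t i) f = y := by
  let R := gen q t s
  let m : R[X] := X ^ q - C ⟨t i ^ q, pow_mem_gen q t s _⟩
  have hm : m.Monic := monic_X_pow_sub_C _ hq
  have hm0 : aeval (t i) m = 0 := by
    simp only [m, map_sub, map_pow, aeval_X, aeval_C]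
    exact sub_self _
  have h1 : gen q t (insert i s) ≤ (IntermediateField.adjoin R {t i}).toSubfield := by
    refine Subfield.closure_le.2 ?_
    rintro _ (⟨x, rfl⟩ | ⟨j, rfl | hj, rfl⟩)
    · exact (IntermediateField.adjoin R {t i}).algebraMap_mem ⟨_, pow_mem_gen q t s x⟩
    · exact IntermediateField.mem_adjoin_simple_self R _
    · exact (IntermediateField.adjoin R {t i}).algebraMap_mem ⟨_, par_mem_gen q t hj⟩
  have h2 : y ∈ (IntermediateField.adjoin R {t i}).toSubalgebra := h1 hy
  rw [IntermediateField.adjoin_simple_toSubalgebra_of_isAlgebraic ⟨m, hm.ne_zero, hm0⟩,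
    Algebra.adjoin_singleton_eq_range_aeval] at h2
  obtain ⟨f, hf⟩ := h2
  refine ⟨f %ₘ m, ?_, by rw [aeval_modByMonic_eq_self_of_root hm0]; exact hf⟩
  have h3 : m.natDegree = q := natDegree_X_pow_sub_C
  have h4 : m ≠ 1 := fun h => by
    rw [h, natDegree_one] at h3
    exact hq h3.symm
  simpa [h3] using natDegree_modByMonic_lt f hm h4

theorem der_gen (p : ℕ) [Fact p.Prime] [CharP K p] (t : σ → K) (s : Set σ) (D : Derivation ℤ K K)
    (hD : ∀ j ∈ s, D (t j) = 0) {y : K} (hy : y ∈ gen p t s) : D y = 0 := by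
  induction hy using Subfield.closure_induction with
  | mem x hx =>
    rcases hx with ⟨x, rfl⟩ | ⟨j, hj, rfl⟩
    · exact H94.der_pow_char p D x
    · exact hD j hj
  | one => simp
  | add x y _ _ hx hy => rw [map_add, hx, hy, add_zero]
  | neg x _ hx => rw [map_neg, hx, neg_zero]
  | inv x _ hx => rw [Derivation.leibniz_inv, hx, smul_zero]
  | mul x y _ _ hx hy => rw [Derivation.leibniz, hx, hy, smul_zero, smul_zero, add_zero]

theorem ker_gen (p : ℕ) [hp : Fact p.Prime] [CharP K p] (t : σ → K) (D : σ → Derivation ℤ K K)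
    (h1 : ∀ i, D i (t i) = 1) (h0 : ∀ i j, j ≠ i → D i (t j) = 0) (s : Finset σ) {g : K}
    (hg : g ∈ gen p t s) (hD : ∀ i, D i g = 0) : ∃ h, g = h ^ p := by
  classical
  induction s using Finset.induction_on with
  | empty =>
    rw [Finset.coe_empty, ← pow_one p] at hg
    obtain ⟨x, hx⟩ := gen_empty p 1 t hg
    exact ⟨x, by rw [← hx, pow_one]⟩
  | insert i s hi ih =>
    rw [Finset.coe_insert] at hg
    obtain ⟨f, hf, rfl⟩ := gen_insert hp.out.ne_zero t s i hg
    obtain ⟨c, rfl⟩ := H94.const_of_der p (D i)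
      (fun r : gen p t s => der_gen p t s (D i)
        (fun j hj => h0 i j (by rintro rfl; exact hi hj)) r.2) (t i) (h1 i) _ hf f le_rfl (hD i)
    refine ih ?_
    rw [aeval_C]
    exact c.2

theorem dp_gen (p n : ℕ) [hp : Fact p.Prime] [CharP K p] (t : σ → K) (hq : An t) (s : Finset σ) :
    Dp t Unit fun x => x () ∈ gen (p ^ n) t s := by
  classical
  induction s using Finset.induction_on with
  | empty =>
    have h1 : Dp t (Unit ⊕ Unit) fun v => v (.inr ()) ^ p ^ n = v (.inl ()) :=
      Dp.eq (PF.pow (PF.var _) _) (PF.var _)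
    refine h1.ex.congr fun x => ⟨fun hx => ?_, ?_⟩
    · rw [Finset.coe_empty] at hx
      obtain ⟨z, hz⟩ := gen_empty p n t hx
      exact ⟨fun _ => z, hz⟩
    · rintro ⟨z, hz⟩
      have h2 : z () ^ p ^ n = x () := hz
      rw [← h2]
      exact pow_mem_gen _ _ _ _
  | insert i s _ ih =>
    have h1 : Dp t (Unit ⊕ Fin (p ^ n)) fun v =>
        (∀ k ∈ Finset.univ, v (.inr k) ∈ gen (p ^ n) t s) ∧
          v (.inl ()) = ∑ k : Fin (p ^ n), v (.inr k) * t i ^ (k : ℕ) :=
      Dp.and hq (Dp.all hq Finset.univ fun k =>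
          ih.comp (f := fun _ v => v (Sum.inr k)) fun _ => PF.var _)
        (Dp.eq (PF.var _) (PF.sum _ fun k _ => PF.mul (PF.var _) (PF.pow (PF.par i) _)))
    refine h1.ex.congr fun x => ⟨fun hx => ?_, ?_⟩
    · rw [Finset.coe_insert] at hx
      obtain ⟨f, hf, hf2⟩ := gen_insert (pow_ne_zero n hp.out.ne_zero) t s i hx
      refine ⟨fun k => f.coeff k, fun k _ => (f.coeff k).2, ?_⟩
      rw [aeval_eq_sum_range' hf, Finset.sum_range] at hf2
      exact hf2.symm
    · rintro ⟨z, hz, hz2⟩
      have h2 : x () = ∑ k : Fin (p ^ n), z k * t i ^ (k : ℕ) := hz2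
      rw [h2]
      refine sum_mem fun k _ => mul_mem (gen_mono _ t (by simp) (hz k (Finset.mem_univ k)))
        (pow_mem (par_mem_gen _ t (by simp)) _)

end

open MvPolynomial

variable (F L K : Type*) (σ : Type) [Field F] [Field L] [Field K]
  [Algebra (MvPolynomial σ F) L] [IsFractionRing (MvPolynomial σ F) L]
  [Algebra (MvPolynomial σ F) K] [Algebra L K] [IsScalarTower (MvPolynomial σ F) L K]

include L in
theorem mem_gen (p n : ℕ) [hp : Fact p.Prime] [CharP F p] [CharP L p] [PerfectRing F p] {x : K}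
    (hx : IsSeparable L x) :
    x ∈ gen (p ^ n) (fun i => algebraMap (MvPolynomial σ F) K (X i)) Set.univ := by
  set R := gen (p ^ n) (fun i => algebraMap (MvPolynomial σ F) K (X i)) Set.univ
  have h1 : ∀ a : MvPolynomial σ F, algebraMap _ K a ∈ R := by
    intro a
    induction a using MvPolynomial.induction_on with
    | C c =>
      obtain ⟨c, rfl⟩ := (bijective_iterateFrobenius F p n).2 c
      rw [iterateFrobenius_def, map_pow, map_pow]
      exact pow_mem_gen _ _ _ _
    | add a b ha hb => rw [map_add]; exact add_mem ha hb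
    | mul_X a i ha =>
      rw [map_mul]
      exact mul_mem ha (par_mem_gen _ _ (Set.mem_univ i))
  have h2 : ∀ c : L, algebraMap L K c ∈ R := by
    intro c
    obtain ⟨a, b, -, rfl⟩ := IsFractionRing.div_surjective (MvPolynomial σ F) c
    rw [map_div₀, ← IsScalarTower.algebraMap_apply, ← IsScalarTower.algebraMap_apply]
    exact div_mem (h1 a) (h1 b)
  have h3 := IntermediateField.mem_adjoin_simple_self L x
  rw [IntermediateField.adjoin_simple_eq_adjoin_pow_expChar_pow_of_isSeparable L K hx p n] at h3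
  have h4 : IntermediateField.adjoin L {x ^ p ^ n} ≤ R.toIntermediateField h2 :=
    IntermediateField.adjoin_simple_le_iff.2 (pow_mem_gen _ _ _ _)
  exact h4 h3

include L in
theorem exists_der [Algebra.IsSeparable L K] (i : σ) : ∃ D : Derivation ℤ K K,
    ∀ q : MvPolynomial σ F, D (algebraMap _ K q) = algebraMap _ K (pderiv i q) := by
  have : Algebra.FormallyEtale L K := Algebra.FormallyEtale.of_isSeparable _ _
  have : Algebra.FormallySmooth (MvPolynomial σ F) L := .of_isLocalization (nonZeroDivisors _)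
  have : Algebra.FormallySmooth (MvPolynomial σ F) K := .comp _ L _
  let φ : MvPolynomial σ F →+* TrivSqZeroExt K K :=
    { toFun := fun r => TrivSqZeroExt.inl (algebraMap _ K r) +
        TrivSqZeroExt.inr (algebraMap _ K (pderiv i r))
      map_one' := by ext <;> simp
      map_mul' := fun x y => by
        ext
        · simp
        · simp only [TrivSqZeroExt.snd_mul, TrivSqZeroExt.snd_add, TrivSqZeroExt.fst_add,
            TrivSqZeroExt.snd_inl, TrivSqZeroExt.snd_inr, TrivSqZeroExt.fst_inl,
            TrivSqZeroExt.fst_inr, zero_add, add_zero, pderiv_mul, op_smul_eq_smul,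
            map_add, map_mul, smul_eq_mul]
          ring
      map_zero' := by ext <;> simp
      map_add' := fun x y => by ext <;> simp [Algebra.algebraMap_eq_smul_one, add_smul] }
  obtain ⟨D, hD⟩ := H94.extend φ (fun r => by simp [φ])
  exact ⟨D, fun q => by rw [hD]; simp [φ, Algebra.algebraMap_eq_smul_one]⟩

open Classical in
/-- the total degree valuation on polynomials. -/
noncomputable def vd : Valuation (MvPolynomial σ F) ℤᵐ⁰ where
  toFun a := if a = 0 then 0 else exp (a.totalDegree : ℤ)
  map_zero' := if_pos rfl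
  map_one' := by simp
  map_mul' a b := by
    by_cases ha : a = 0
    · simp [ha]
    by_cases hb : b = 0
    · simp [hb]
    rw [if_neg ha, if_neg hb, if_neg (mul_ne_zero ha hb), totalDegree_mul_of_isDomain ha hb,
      ← exp_add, Nat.cast_add]
  map_add_le_max' a b := by
    by_cases ha : a = 0
    · simp [ha]
    by_cases hb : b = 0
    · simp [hb]
    by_cases hab : a + b = 0
    · simp [hab]
    simp only [if_neg ha, if_neg hb, if_neg hab, le_max_iff, exp_le_exp, Nat.cast_le]
    exact le_max_iff.1 (totalDegree_add a b)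

theorem vd_apply {a : MvPolynomial σ F} (ha : a ≠ 0) : vd F σ a = exp (a.totalDegree : ℤ) :=
  if_neg ha

theorem totalDegree_pderiv_le (i : σ) (a : MvPolynomial σ F) :
    (pderiv i a).totalDegree ≤ a.totalDegree := by
  rw [totalDegree, Finset.sup_le_iff]
  intro m hm
  rw [mem_support_iff, coeff_pderiv] at hm
  have h1 := le_totalDegree (mem_support_iff.2 (left_ne_zero_of_mul hm))
  refine le_trans ?_ h1
  rw [Finsupp.sum_add_index' (fun _ => rfl) fun _ _ _ => rfl]
  exact Nat.le_add_right _ _

theorem exists_vi : ∃ v : Valuation L ℤᵐ⁰,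
    (∀ i, v (algebraMap (MvPolynomial σ F) L (X i)) = exp 1) ∧
    (∀ i (a : MvPolynomial σ F), v (algebraMap _ L (pderiv i a)) ≤ v (algebraMap _ L a)) ∧
    ∀ (π a : MvPolynomial σ F) (k : ℕ), Prime π → π ^ k ∣ a → a ≠ 0 →
      exp (k : ℤ) ≤ v (algebraMap _ L a) := by
  have hS : nonZeroDivisors (MvPolynomial σ F) ≤ (vd F σ).supp.primeCompl := fun a ha h => by
    have h1 : vd F σ a = 0 := h
    rw [vd_apply F σ (nonZeroDivisors.ne_zero ha)] at h1
    exact exp_ne_zero h1
  refine ⟨(vd F σ).extendToLocalization hS L, fun i => ?_, fun i a => ?_,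
    fun π a k hπ hk ha => ?_⟩ <;> simp only [Valuation.extendToLocalization_apply_map_apply]
  · rw [vd_apply F σ (X_ne_zero i), totalDegree_X, Nat.cast_one]
  · by_cases h : pderiv i a = 0
    · simp [h]
    have ha : a ≠ 0 := by rintro rfl; simp at h
    rw [vd_apply F σ h, vd_apply F σ ha, exp_le_exp, Nat.cast_le]
    exact totalDegree_pderiv_le F σ i a
  · rw [vd_apply F σ ha, exp_le_exp, Nat.cast_le]
    refine le_trans ?_ (totalDegree_le_of_dvd_of_isDomain hk ha)
    have h1 : 0 < π.totalDegree := by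
      rw [pos_iff_ne_zero, Ne, totalDegree_eq_zero_iff_eq_C]
      intro h
      refine hπ.not_isUnit ?_
      rw [h]
      refine (IsUnit.mk0 _ fun h0 => hπ.ne_zero ?_).map C
      rw [h, h0, map_zero]
    clear hk
    induction k with
    | zero => exact Nat.zero_le _
    | succ k ih =>
      rw [pow_succ, totalDegree_mul_of_isDomain (pow_ne_zero _ hπ.ne_zero) hπ.ne_zero]
      omega

end Pool.Agent.MP_28f2cb_lc.H93
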