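import Pool.Agent.MP_28f2cb_lc.H93.Main

/-
Integral closures of finitely generated subrings of finitely generated fields.
-/

namespace Pool.Agent.MP_28f2cb_lc.H93

open WithZero MvPolynomial

section
variable {K : Type*} [Field K] {ι κ α σ : Type} {t : ι → K} {s : κ → K}

theorem PF.const {c : K} (hc : c ∈ Subring.closure (Set.range t)) : (fun _ => c) ∈ PF t σ := by
  induction hc using Subring.closure_induction with
  | mem x hx =>
    obtain ⟨i, rfl⟩ := hx
    exact PF.par i
  | zero => exact zero_mem _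
  | one => exact one_mem _
  | add x y _ _ hx hy => exact add_mem hx hy
  | neg x _ hx => exact neg_mem hx
  | mul x y _ _ hx hy => exact mul_mem hx hy

theorem Dp.mono (hs : ∀ j, s j ∈ Subring.closure (Set.range t)) {S : (α → K) → Prop}
    (h : Dp s α S) : Dp t α S := by
  obtain ⟨β, hβ, φ, hφ, h⟩ := h
  refine ⟨β, hβ, φ, (Subring.closure_le (t := PF t (α ⊕ β))).2 ?_ hφ, h⟩
  rintro _ (⟨j, rfl⟩ | ⟨i, rfl⟩)
  · exact PF.const (hs j)
  · exact PF.var i

theorem PF.repar {φ : (σ → K) → K} (h : φ ∈ PF s σ) (t : ι → K) :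
    ∃ ψ ∈ PF t (σ ⊕ κ), ∀ v, ψ (Sum.elim v s) = φ v := by
  induction h using Subring.closure_induction with
  | mem x hx =>
    rcases hx with ⟨i, rfl⟩ | ⟨i, rfl⟩
    · exact ⟨_, PF.var (.inr i), fun _ => rfl⟩
    · exact ⟨_, PF.var (.inl i), fun _ => rfl⟩
  | zero => exact ⟨0, zero_mem _, fun _ => rfl⟩
  | one => exact ⟨1, one_mem _, fun _ => rfl⟩
  | add x y _ _ hx hy =>
    obtain ⟨P, hP, h1⟩ := hx
    obtain ⟨Q, hQ, h2⟩ := hy
    exact ⟨P + Q, add_mem hP hQ, fun v => by rw [Pi.add_apply, h1, h2]; rfl⟩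
  | neg x _ hx =>
    obtain ⟨P, hP, h1⟩ := hx
    exact ⟨-P, neg_mem hP, fun v => by rw [Pi.neg_apply, h1]; rfl⟩
  | mul x y _ _ hx hy =>
    obtain ⟨P, hP, h1⟩ := hx
    obtain ⟨Q, hQ, h2⟩ := hy
    exact ⟨P * Q, mul_mem hP hQ, fun v => by rw [Pi.mul_apply, h1, h2]; rfl⟩

theorem Dp.repar [Finite κ] (hq : An t) (hs : ∀ j, Dp t Unit fun x => x () = s j)
    {S : (α → K) → Prop} (h : Dp s α S) : Dp t α S := by
  obtain ⟨β, hβ, φ, hφ, h⟩ := h
  have := Fintype.ofFinite κ
  obtain ⟨ψ, hψ, h1⟩ := PF.repar hφ t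
  have h2 : Dp t (α ⊕ (β ⊕ κ)) fun w => (∀ j ∈ Finset.univ, w (.inr (.inr j)) = s j) ∧
      (ψ fun i => w (Equiv.sumAssoc α β κ i)) = 0 :=
    Dp.and hq (Dp.all hq Finset.univ fun j =>
        (hs j).comp (f := fun _ w => w (Sum.inr (Sum.inr j))) fun _ => PF.var _)
      (Dp.eq (PF.comp hψ fun _ => PF.var _) PF.zero)
  refine h2.ex.congr fun x => (h x).trans ⟨?_, ?_⟩
  · rintro ⟨y, hy⟩
    refine ⟨Sum.elim y s, fun _ _ => rfl, Eq.trans (congrArg ψ ?_) ((h1 _).trans hy)⟩
    funext i
    rcases i with (i | i) | i <;> rfl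
  · rintro ⟨z, hz, hz2⟩
    refine ⟨fun b => z (.inl b), (h1 _).symm.trans (Eq.trans (congrArg ψ ?_) hz2)⟩
    funext i
    rcases i with (i | i) | i
    exacts [rfl, rfl, (hz i (Finset.mem_univ i)).symm]

end

variable {F K : Type*} [Field F] [Field K] [Algebra F K] {σ : Type}

theorem int_mono {R : Type*} [CommRing R] [Algebra R K] {B : Subalgebra F K}
    (h : ∀ b ∈ B, IsIntegral R b) {x : K} (hx : IsIntegral B x) : IsIntegral R x := by
  obtain ⟨f, hm, hf⟩ := hx
  refine H94.integral_of_root (f.map (algebraMap B K)) (hm.map _) (fun i => ?_) ?_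
  · rw [Polynomial.coeff_map]
    exact h _ (f.coeff i).2
  · rw [Polynomial.eval_map]
    exact hf

theorem int_le {B B' : Subalgebra F K} (h : B ≤ B') {x : K} (hx : IsIntegral B x) :
    IsIntegral B' x :=
  int_mono (fun b hb => isIntegral_algebraMap (x := (⟨b, h hb⟩ : B'))) hx

theorem setup [Algebra.EssFiniteType F K] {u : σ → K} (hu : IsTranscendenceBasis F u) :
    ∃ (L : IntermediateField F K) (_ : Algebra (MvPolynomial σ F) L)
      (_ : IsFractionRing (MvPolynomial σ F) L) (_ : Algebra (MvPolynomial σ F) K)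
      (_ : IsScalarTower (MvPolynomial σ F) L K), FiniteDimensional L K ∧
      ∀ f, algebraMap (MvPolynomial σ F) K f = aeval u f := by
  let L := IntermediateField.adjoin F (Set.range u)
  let w : σ → L := fun i => ⟨u i, IntermediateField.subset_adjoin _ _ ⟨i, rfl⟩⟩
  have hw : ∀ f : MvPolynomial σ F, ((aeval w f : L) : K) = aeval u f := fun f =>
    comp_aeval_apply w L.val f
  let : Algebra (MvPolynomial σ F) L := (aeval w : MvPolynomial σ F →ₐ[F] L).toAlgebra
  let : Algebra (MvPolynomial σ F) K := (aeval u : MvPolynomial σ F →ₐ[F] K).toAlgebra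
  have : FaithfulSMul (MvPolynomial σ F) L :=
    (faithfulSMul_iff_algebraMap_injective _ _).2 fun f g h =>
      hu.1 (by rw [← hw, ← hw]; exact congrArg Subtype.val h)
  have : Algebra.EssFiniteType L K := .of_comp F L K
  have := hu.isAlgebraic_field
  refine ⟨L, inferInstance, IsFractionRing.of_field _ _ fun z => ?_, inferInstance,
    .of_algebraMap_eq fun f => (hw f).symm, Algebra.finite_of_essFiniteType_of_isAlgebraic,
    fun _ => rfl⟩
  obtain ⟨r, s, h⟩ := (IntermediateField.mem_adjoin_range_iff F u z).1 z.2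
  refine ⟨r, s, Subtype.ext ?_⟩
  rw [h, ← hw, ← hw]
  rfl

theorem int_iff {u : σ → K} [Algebra (MvPolynomial σ F) K]
    (h : ∀ f, algebraMap (MvPolynomial σ F) K f = aeval u f) (x : K) :
    IsIntegral (Algebra.adjoin F (Set.range u)) x ↔ IsIntegral (MvPolynomial σ F) x := by
  constructor
  · refine int_mono fun b hb => ?_
    rw [Algebra.adjoin_range_eq_range_aeval] at hb
    obtain ⟨f, rfl⟩ := hb
    exact (h f) ▸ isIntegral_algebraMap
  · rintro ⟨f, hm, hf⟩
    refine H94.integral_of_root (f.map (algebraMap _ K)) (hm.map _) (fun i => ?_) ?_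
    · rw [Polynomial.coeff_map, h]
      refine isIntegral_algebraMap (x := (⟨_, ?_⟩ : Algebra.adjoin F (Set.range u)))
      rw [Algebra.adjoin_range_eq_range_aeval]
      exact ⟨_, rfl⟩
    · rw [Polynomial.eval_map]
      exact hf

theorem dp_fam [Finite σ] (p : ℕ) [Fact p.Prime] [Algebra (ZMod p) F]
    [Algebra.IsAlgebraic (ZMod p) F] [Algebra.EssFiniteType F K] {u : σ → K}
    (hu : IsTranscendenceBasis F u) :
    (Dp u Unit fun x => IsIntegral (Algebra.adjoin F (Set.range u)) (x ())) ∧
      (Nonempty σ → An u) := by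
  classical
  have := Fintype.ofFinite σ
  obtain ⟨L, _, _, _, _, _, h⟩ := setup hu
  have e : (fun i : σ => algebraMap (MvPolynomial σ F) K (X i)) = u := by
    funext i
    rw [h, aeval_X]
  exact ⟨(e ▸ dp_all σ F L K p).congr fun x => int_iff h _, fun _ => e ▸ aniso σ F L K⟩

variable (F) in
open Classical in
/-- the degree in one variable as a valuation. -/
noncomputable def vo (i : σ) : Valuation (MvPolynomial σ F) ℤᵐ⁰ where
  toFun a := if a = 0 then 0 else exp (a.degreeOf i : ℤ)
  map_zero' := if_pos rfl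
  map_one' := by simp
  map_mul' a b := by
    by_cases ha : a = 0
    · simp [ha]
    by_cases hb : b = 0
    · simp [hb]
    rw [if_neg ha, if_neg hb, if_neg (mul_ne_zero ha hb), degreeOf_mul_eq ha hb,
      ← exp_add, Nat.cast_add]
  map_add_le_max' a b := by
    by_cases ha : a = 0
    · simp [ha]
    by_cases hb : b = 0
    · simp [hb]
    by_cases hab : a + b = 0
    · simp [hab]
    simp only [if_neg ha, if_neg hb, if_neg hab, le_max_iff, exp_le_exp, Nat.cast_le]
    exact le_max_iff.1 (degreeOf_add_le i a b)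

theorem vo_apply (i : σ) {a : MvPolynomial σ F} (ha : a ≠ 0) :
    vo F i a = exp (a.degreeOf i : ℤ) := if_neg ha

theorem inter [Algebra.EssFiniteType F K] {u u' : σ → K} (hu : IsTranscendenceBasis F u)
    (S : Set σ) (h1 : ∀ i ∈ S, u' i = u i) (h2 : ∀ i ∉ S, u' i = (u i)⁻¹) {x : K}
    (hx : IsIntegral (Algebra.adjoin F (Set.range u)) x)
    (hx' : IsIntegral (Algebra.adjoin F (Set.range u')) x) :
    IsIntegral (Algebra.adjoin F (u '' S)) x := by
  obtain ⟨L, _, _, _, _, _, h⟩ := setup hu
  have hA := (int_iff h x).1 hx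
  have hc : ∀ k, (minpoly (MvPolynomial σ F) x).coeff k ∈ supported F S := by
    intro k
    rw [mem_supported]
    intro i hi
    by_contra hiS
    have hS : nonZeroDivisors (MvPolynomial σ F) ≤ (vo F i).supp.primeCompl := fun a ha h => by
      have h1 : vo F i a = 0 := h
      rw [vo_apply i (nonZeroDivisors.ne_zero ha)] at h1
      exact exp_ne_zero h1
    let v := (vo F i).extendToLocalization hS L
    have hv : ∀ a, v (algebraMap (MvPolynomial σ F) L a) = vo F i a := fun a =>
      Valuation.extendToLocalization_apply_map_apply _ _ _ a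
    let O := v.valuationSubring
    have hO : ∀ b ∈ Algebra.adjoin F (Set.range u'), b ∈ (algebraMap O K).range := by
      intro b hb
      have hm : ∀ c : L, v c ≤ 1 → algebraMap L K c ∈ (algebraMap O K).range :=
        fun c hc => ⟨⟨c, hc⟩, rfl⟩
      induction hb using Algebra.adjoin_induction with
      | mem b hb =>
        obtain ⟨j, rfl⟩ := hb
        have e : u j = algebraMap L K (algebraMap (MvPolynomial σ F) L (X j)) := by
          rw [← IsScalarTower.algebraMap_apply, h, aeval_X]
        by_cases hj : j ∈ S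
        · rw [h1 j hj, e]
          refine hm _ ?_
          rw [hv, vo_apply i (X_ne_zero j), degreeOf_X_of_ne (by rintro rfl; exact hiS hj)]
          simp
        · rw [h2 j hj, e, ← map_inv₀]
          refine hm _ ?_
          rw [map_inv₀, hv, vo_apply i (X_ne_zero j), ← exp_neg, ← exp_zero, exp_le_exp]
          omega
      | algebraMap r =>
        have e : algebraMap F K r = algebraMap L K (algebraMap (MvPolynomial σ F) L (C r)) := by
          rw [← IsScalarTower.algebraMap_apply, h, aeval_C]
        rw [e]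
        refine hm _ ?_
        rw [hv]
        by_cases hr : (C r : MvPolynomial σ F) = 0
        · simp [hr]
        · rw [vo_apply i hr, degreeOf_C]
          simp
      | add a b _ _ ha hb => exact add_mem ha hb
      | mul a b _ _ ha hb => exact mul_mem ha hb
    have hxO : IsIntegral O x := int_mono (fun b hb => by
      obtain ⟨c, rfl⟩ := hO b hb
      exact isIntegral_algebraMap) hx'
    have e1 := minpoly.isIntegrallyClosed_eq_field_fractions' L hA
    rw [minpoly.isIntegrallyClosed_eq_field_fractions' L hxO] at e1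
    have e2 := congrArg (fun f => v (Polynomial.coeff f k)) e1
    simp only [Polynomial.coeff_map, hv] at e2
    have e3 : vo F i ((minpoly (MvPolynomial σ F) x).coeff k) ≤ 1 :=
      e2 ▸ ((minpoly O x).coeff k).2
    have e4 := mem_vars_iff_degreeOf_ne_zero.1 (Finset.mem_coe.1 hi)
    rw [vo_apply i (ne_zero_of_degreeOf_ne_zero e4), ← exp_zero, exp_le_exp] at e3
    omega
  refine H94.integral_of_root ((minpoly (MvPolynomial σ F) x).map (algebraMap _ K))
    ((minpoly.monic hA).map _) (fun k => ?_) ?_
  · rw [Polynomial.coeff_map, h]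
    have h3 := Subalgebra.mem_map.2 ⟨_, hc k, rfl (a := aeval u _)⟩
    rw [supported_eq_adjoin_X, AlgHom.map_adjoin, Set.image_image] at h3
    simp only [aeval_X] at h3
    exact isIntegral_algebraMap (x := (⟨_, h3⟩ : Algebra.adjoin F (u '' S)))
  · rw [Polynomial.eval_map]
    exact minpoly.aeval _ x

theorem dp_sub [Finite σ] (p : ℕ) [Fact p.Prime] [Algebra (ZMod p) F]
    [Algebra.IsAlgebraic (ZMod p) F] [Algebra.EssFiniteType F K] {u : σ → K}
    (hu : IsTranscendenceBasis F u) (S : Set σ) :
    Dp u Unit fun x => IsIntegral (Algebra.adjoin F (u '' S)) (x ()) := by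
  classical
  obtain ⟨h1, h2⟩ := dp_fam p hu
  rcases isEmpty_or_nonempty σ with h0 | h0
  · rwa [Set.eq_empty_of_isEmpty S, Set.image_empty, ← Set.range_eq_empty u]
  let u' : σ → K := fun i => if i ∈ S then u i else (u i)⁻¹
  have e : IntermediateField.adjoin F (Set.range u') = IntermediateField.adjoin F (Set.range u) := by
    refine le_antisymm ?_ ?_ <;> rw [IntermediateField.adjoin_le_iff] <;> rintro _ ⟨i, rfl⟩
    · have h3 : u i ∈ IntermediateField.adjoin F (Set.range u) :=
        IntermediateField.subset_adjoin _ _ ⟨i, rfl⟩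
      by_cases hi : i ∈ S
      · simpa only [u', if_pos hi, SetLike.mem_coe] using h3
      · simpa only [u', if_neg hi, SetLike.mem_coe] using inv_mem h3
    · have h3 : u' i ∈ IntermediateField.adjoin F (Set.range u') :=
        IntermediateField.subset_adjoin _ _ ⟨i, rfl⟩
      by_cases hi : i ∈ S
      · simpa only [u', if_pos hi, SetLike.mem_coe] using h3
      · simpa only [u', if_neg hi, inv_inv, SetLike.mem_coe] using inv_mem h3
  have : Algebra.IsAlgebraic (Algebra.adjoin F (Set.range u')) K := by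
    rw [← IntermediateField.isAlgebraic_adjoin_iff_top, e]
    exact hu.isAlgebraic_field
  have hu' : IsTranscendenceBasis F u' :=
    Algebra.IsAlgebraic.isTranscendenceBasis_of_lift_le_trdeg_of_finite F u'
      hu.lift_cardinalMk_eq_trdeg.le
  have h3 : ∀ j, Dp u Unit fun x => x () = u' j := fun j => by
    by_cases hj : j ∈ S
    · simpa only [u', if_pos hj] using Dp.eq (PF.var ()) (PF.par (t := u) j)
    · refine (Dp.eq (PF.mul (PF.var ()) (PF.par (t := u) j)) (one_mem _)).congr fun x => ?_
      simp only [u', if_neg hj, Pi.one_apply]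
      exact (mul_eq_one_iff_eq_inv₀ (hu.1.ne_zero j)).symm
  refine (Dp.and (h2 h0) h1 (Dp.repar (h2 h0) h3 (dp_fam p hu').1)).congr
    fun x => ⟨fun hx => ⟨int_le (Algebra.adjoin_mono ?_) hx, int_le (Algebra.adjoin_mono ?_) hx⟩,
      fun hx => inter hu S (fun i hi => if_pos hi) (fun i hi => if_neg hi) hx.1 hx.2⟩
  · exact Set.image_subset_range _ _
  · rintro _ ⟨i, hi, rfl⟩
    exact ⟨i, if_pos hi⟩

theorem dp_main {ι : Type} [Finite ι] (p : ℕ) [Fact p.Prime] [Algebra (ZMod p) F]
    [Algebra.IsAlgebraic (ZMod p) F] (a : ι → K)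
    [FiniteDimensional (IntermediateField.adjoin F (Set.range a)) K] (S : Set ι) :
    Dp a Unit fun x => IsIntegral (Algebra.adjoin F (a '' S)) (x ()) := by
  classical
  have : Algebra.EssFiniteType F (IntermediateField.adjoin F (Set.range a)) :=
    IntermediateField.essFiniteType_iff.2 ⟨(Set.finite_range a).toFinset, by simp⟩
  have : Algebra.EssFiniteType F K := .comp F (IntermediateField.adjoin F (Set.range a)) K
  let : Algebra (ZMod p) K := ((algebraMap F K).comp (algebraMap (ZMod p) F)).toAlgebra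
  have : IsScalarTower (ZMod p) F K := .of_algebraMap_eq fun _ => rfl
  let R := Algebra.adjoin (ZMod p) (a '' S)
  have : Algebra.FiniteType (ZMod p) R := .adjoin_of_finite (Set.toFinite _)
  obtain ⟨n, g, hg, hg2⟩ := exists_integral_inj_algHom_of_fg (ZMod p) R
  let s : Fin n → K := fun i => g (X i)
  have hs : ∀ f, aeval s f = (g f : K) := fun f => by
    have := comp_aeval_apply (fun i => X i) (R.val.comp g) f
    rw [aeval_X_left_apply] at this
    exact this.symm
  have hs1 : AlgebraicIndependent (ZMod p) s := fun f f' h =>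
    hg (Subtype.ext (by rw [← hs, ← hs]; exact h))
  have hs2 : AlgebraicIndependent F s := hs1.extendScalars F
  have hR : ∀ b ∈ R, b ∈ Subring.closure (Set.range a) ∧ b ∈ Algebra.adjoin F (a '' S) := by
    intro b hb
    induction hb using Algebra.adjoin_induction with
    | mem b hb =>
      exact ⟨Subring.subset_closure (Set.image_subset_range _ _ hb), Algebra.subset_adjoin hb⟩
    | algebraMap r =>
      obtain ⟨r, rfl⟩ := ZMod.intCast_surjective r
      rw [map_intCast]
      exact ⟨intCast_mem _ _, intCast_mem _ _⟩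
    | add a b _ _ ha hb => exact ⟨add_mem ha.1 hb.1, add_mem ha.2 hb.2⟩
    | mul a b _ _ ha hb => exact ⟨mul_mem ha.1 hb.1, mul_mem ha.2 hb.2⟩
  have h1 : ∀ b ∈ Algebra.adjoin F (a '' S), IsIntegral (Algebra.adjoin F (Set.range s)) b := by
    intro b hb
    induction hb using Algebra.adjoin_induction with
    | mem b hb =>
      obtain ⟨f, hm, hf⟩ := hg2 ⟨b, Algebra.subset_adjoin hb⟩
      refine H94.integral_of_root (f.map (R.val.comp g).toRingHom) (hm.map _) (fun i => ?_) ?_
      · rw [Polynomial.coeff_map]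
        refine isIntegral_algebraMap (x := (⟨_, ?_⟩ : Algebra.adjoin F (Set.range s)))
        have h2 : Algebra.adjoin (ZMod p) (Set.range s) ≤
            (Algebra.adjoin F (Set.range s)).restrictScalars (ZMod p) :=
          Algebra.adjoin_le Algebra.subset_adjoin
        refine h2 ?_
        rw [Algebra.adjoin_range_eq_range_aeval]
        exact ⟨_, hs _⟩
      · rw [Polynomial.eval_map]
        have h2 := congrArg R.val.toRingHom hf
        rw [Polynomial.hom_eval₂, map_zero] at h2
        exact h2
    | algebraMap r => exact isIntegral_algebraMap (x := algebraMap F _ r)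
    | add a b _ _ ha hb => exact ha.add hb
    | mul a b _ _ ha hb => exact ha.mul hb
  have : Algebra.IsAlgebraic (Algebra.adjoin F (Set.range s ∪ Set.range a)) K := by
    rw [← IntermediateField.isAlgebraic_adjoin_iff_top]
    have hle : IntermediateField.adjoin F (Set.range a) ≤
        IntermediateField.adjoin F (Set.range s ∪ Set.range a) :=
      IntermediateField.adjoin.mono _ _ _ Set.subset_union_right
    exact ⟨fun x => (Algebra.IsAlgebraic.isAlgebraic
      (R := IntermediateField.adjoin F (Set.range a)) x).tower_top_of_subalgebra_le hle⟩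
  obtain ⟨B, hB1, hB2, hB⟩ := exists_isTranscendenceBasis_between (R := F) (Set.range s)
    (Set.range s ∪ Set.range a) Set.subset_union_left hs2.to_subtype_range
  have : Finite B := ((Set.finite_range s).union (Set.finite_range a)).subset hB2
  obtain ⟨r, ⟨e⟩⟩ := Finite.exists_equiv_fin B
  let u : Fin r → K := Subtype.val ∘ e.symm
  have hu : IsTranscendenceBasis F u := (isTranscendenceBasis_equiv e.symm).2 hB
  have h2 : u '' {i | u i ∈ Set.range s} = Set.range s := by
    refine Set.Subset.antisymm ?_ fun y hy => ⟨e ⟨y, hB1 hy⟩, ?_, ?_⟩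
    · rintro _ ⟨i, hi, rfl⟩
      exact hi
    · simpa [u] using hy
    · simp [u]
  have h3 := dp_sub p hu {i | u i ∈ Set.range s}
  rw [h2] at h3
  refine (Dp.mono (fun j => ?_) h3).congr fun x => ⟨int_mono h1, int_le (Algebra.adjoin_le ?_)⟩
  · rcases hB2 (e.symm j).2 with ⟨i, hi⟩ | hi
    · exact (show s i = u j from hi) ▸ (hR _ (g (X i)).2).1
    · exact Subring.subset_closure hi
  · rintro _ ⟨i, rfl⟩
    exact (hR _ (g (X i)).2).2

end Pool.Agent.MP_28f2cb_lc.H93
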