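import Pool.Agent.MP_28f2cb_lc.H93.Places

/-
Solutions of the system of Pheidas are integral when the exponent is large.
-/

namespace Pool.Agent.MP_28f2cb_lc.H93

open WithZero H94

variable (A L K : Type*) [CommRing A] [IsDomain A] [IsNoetherianRing A]
  [UniqueFactorizationMonoid A] [Field L] [Field K] [Algebra A L]
  [IsFractionRing A L] [Algebra A K] [Algebra L K] [IsScalarTower A L K]
  [FiniteDimensional L K] [Algebra.IsSeparable L K]

omit [IsNoetherianRing A] [UniqueFactorizationMonoid A] in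
theorem infty_bound (vi : Valuation L ℤᵐ⁰) (s : L) (hs0 : s ≠ 0) (hs : vi s < 1)
    (D : Derivation ℤ K K) (d : A → A) (hD : ∀ q, D (algebraMap A K q) = algebraMap A K (d q))
    (hd : ∀ q, vi (algebraMap A L (d q)) ≤ vi (algebraMap A L q)) :
    ∃ ε : L, ε ≠ 0 ∧ ∀ g : K, g ≠ 0 → vi (Algebra.norm L (algebraMap L K ε * (D g / g))) ≤ 1 := by
  have : vi.IsNontrivial := ⟨s, by simpa using hs0, hs.ne⟩
  let O := vi.valuationSubring
  have : IsDiscreteValuationRing O := inferInstance
  have hA : ∀ a : O, IsIntegral O (D (algebraMap O K a)) := by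
    rintro ⟨a, ha⟩
    obtain ⟨a, b, hb, rfl⟩ := IsFractionRing.div_surjective A a
    have hb1 : algebraMap A L b ≠ 0 := IsFractionRing.to_map_ne_zero_of_mem_nonZeroDivisors hb
    have hb2 : algebraMap A K b ≠ 0 := by
      rw [IsScalarTower.algebraMap_apply A L K]
      simpa using hb1
    have hvb : 0 < vi (algebraMap A L b) := by simpa [pos_iff_ne_zero] using hb1
    have ha' : vi (algebraMap A L a) ≤ vi (algebraMap A L b) := by
      have h : vi _ ≤ 1 := ha
      rwa [map_div₀, div_le_one₀ hvb] at h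
    let c : L := (algebraMap A _ b * algebraMap A _ (d a) -
      algebraMap A _ a * algebraMap A _ (d b)) / algebraMap A _ b ^ 2
    have hc : c ∈ O := by
      show vi c ≤ 1
      rw [map_div₀, map_pow, div_le_one₀ (pow_pos hvb 2), pow_two]
      refine Valuation.map_sub_le _ ?_ ?_
      · rw [map_mul]; gcongr; exact (hd a).trans ha'
      · rw [map_mul]; gcongr; exact hd b
    have h1 : D (algebraMap L K (algebraMap A _ a / algebraMap A _ b)) =
        algebraMap O K ⟨c, hc⟩ := by
      show _ = algebraMap L K c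
      simp only [c, map_div₀, map_sub, map_mul, map_pow, ← IsScalarTower.algebraMap_apply]
      rw [Derivation.leibniz_div, hD, hD]
      simp only [smul_eq_mul]
      field_simp
    have h2 : IsIntegral O (algebraMap O K ⟨c, hc⟩) := isIntegral_algebraMap
    rw [← h1] at h2
    exact h2
  obtain ⟨δ, hδ, h⟩ := H94.exists_delta O L K D hA
  obtain ⟨S, h1, -, h3, h4, h5⟩ := H94.exists_places O L K
  let s' : O := ⟨s, hs.le⟩
  refine ⟨s * (δ : L), mul_ne_zero hs0 (fun h0 => hδ (Subtype.ext h0)), fun g hg => ?_⟩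
  have hint : IsIntegral O (algebraMap L K (s * (δ : L)) * (D g / g)) := by
    refine h3 _ fun v hv => ?_
    obtain ⟨π, hπ⟩ := h1 v hv
    obtain ⟨I, hI, hI2, -⟩ := h5 v hv
    have hs' : s' ∈ I := by
      rw [IsLocalRing.eq_maximalIdeal hI]
      exact (Valuation.mem_maximalIdeal_iff _ _).2 hs
    have h6 := le_exp_neg_one_of_lt_one (hI2 s' hs')
    have h7 := val_der_le v π hπ (algebraMap O K δ • D) (h4 _ h v hv) g
    have hg0 : 0 < v g := by simpa [pos_iff_ne_zero] using hg
    rw [mul_comm, ← div_le_iff₀ hg0, ← map_div₀] at h7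
    have h8 : algebraMap L K (s * (δ : L)) * (D g / g) =
        algebraMap O K s' * ((algebraMap O K δ • D) g / g) := by
      rw [map_mul, Derivation.smul_apply, smul_eq_mul, mul_assoc, mul_div_assoc]
      rfl
    rw [h8, map_mul]
    calc v (algebraMap O K s') * v ((algebraMap O K δ • D) g / g) ≤ exp (-1) * exp 1 := by gcongr
      _ = 1 := by rw [← exp_add]; simp
  obtain ⟨y, hy⟩ := IsIntegrallyClosed.isIntegral_iff.1 (Algebra.isIntegral_norm L hint)
  rw [← hy]
  exact y.2

include L in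
omit [IsDomain A] [IsNoetherianRing A] [UniqueFactorizationMonoid A] [FiniteDimensional L K]
  [Algebra.IsSeparable L K] in
theorem alg_ne_zero {q : A} (hq : q ≠ 0) : algebraMap A K q ≠ 0 := by
  rw [IsScalarTower.algebraMap_apply A L K]
  exact (map_ne_zero _).2 ((map_ne_zero_iff _ (IsFractionRing.injective A L)).2 hq)

theorem exists_bound {ι : Type*} [Finite ι] (f : ι → ℤᵐ⁰) : ∃ C : ℕ, ∀ i, f i < exp (C : ℤ) := by
  obtain ⟨C, hC⟩ := (Set.finite_range fun i => (log (f i) + 1).toNat).bddAbove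
  refine ⟨C, fun i => lt_exp_of_log_lt ?_⟩
  have := hC ⟨i, rfl⟩
  simp only at this
  omega

theorem pheidas (p : ℕ) [hp : Fact p.Prime] [CharP K p] (vi : Valuation L ℤᵐ⁰) (s : L)
    (hs0 : s ≠ 0) (hs : vi s < 1)
    (hvi : ∀ (π a : A) (k : ℕ), Prime π → π ^ k ∣ a → a ≠ 0 → exp (k : ℤ) ≤ vi (algebraMap A L a))
    {ι : Type*} [Finite ι] (D : ι → Derivation ℤ K K) (d : ι → A → A)
    (hD : ∀ l q, D l (algebraMap A K q) = algebraMap A K (d l q))
    (hd : ∀ l q, vi (algebraMap A L (d l q)) ≤ vi (algebraMap A L q))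
    (hker : ∀ g, (∀ l, D l g = 0) → ∃ h, g = h ^ p) (τ : A) (hτ : τ ≠ 0) :
    ∃ C : ℕ, ∀ r, 0 < r → C ≤ p ^ r → ∀ T u w : K, T ≠ 0 →
      T - algebraMap A K τ = u ^ p ^ r - u →
      T⁻¹ - (algebraMap A K τ)⁻¹ = w ^ p ^ r - w → IsIntegral A T := by
  choose ε hε hinf using fun l => infty_bound A L K vi s hs0 hs (D l) (d l) (hD l) (hd l)
  obtain ⟨δ, hδ, h⟩ := exists_delta A L K D fun l a => by
    rw [hD]; exact isIntegral_algebraMap
  obtain ⟨S, h1, h2, h3, h4, h5⟩ := exists_places A L K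
  set t := algebraMap A K τ with ht
  let κ : ι → L := fun l => algebraMap A _ (τ * δ) / ε l
  obtain ⟨C, hC⟩ := exists_bound fun l => vi (κ l ^ Module.finrank L K)
  refine ⟨C + 2, fun r hr hN T u w hT e1 e2 => h3 _ fun v hv => ?_⟩
  obtain ⟨π, hπ⟩ := h1 v hv
  have key : ∀ n : ℕ, ∀ k, k < r → ∀ g u w : K, g ^ p ^ k - t = u ^ p ^ r - u →
      g⁻¹ ^ p ^ k - t⁻¹ = w ^ p ^ r - w → 1 < v g → v g ≤ exp (n : ℤ) → False := by
    intro n
    induction n with
    | zero => exact fun k _ g u w _ _ a b => absurd a (not_lt.2 (by simpa using b))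
    | succ n ih =>
      intro k hk g u w e1 e2 hg hn
      have hg0 : g ≠ 0 := by rintro rfl; simp at hg
      by_cases hDg : ∀ l, D l g = 0
      · obtain ⟨g1, rfl⟩ := hker g hDg
        rw [map_pow] at hg hn
        have hg1 : 1 < v g1 := by
          by_contra hh
          exact absurd hg (not_lt.2 (pow_le_one₀ zero_le (not_lt.1 hh)))
        have hg2 : v g1 ≤ exp (n : ℤ) := by
          rw [← lt_mul_exp_iff_le exp_ne_zero, ← exp_add]
          exact (lt_self_pow₀ hg1 hp.out.one_lt).trans_le (by simpa using hn)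
        rw [← pow_mul, ← pow_succ'] at e1
        rw [← inv_pow, ← pow_mul, ← pow_succ'] at e2
        rcases (Nat.succ_le_of_lt hk).lt_or_eq with hk1 | hk1
        · exact ih (k + 1) hk1 g1 u w e1 e2 hg1 hg2
        · have hk2 : k + 1 = r := hk1
          rw [hk2] at e1 e2
          refine ih 0 hr g1 (u - g1) (w - g1⁻¹) ?_ ?_ hg1 hg2
          · rw [sub_pow_char_pow]; linear_combination e1
          · rw [sub_pow_char_pow]; linear_combination e2
      · obtain ⟨l, hDg⟩ := not_forall.1 hDg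
        set E := algebraMap A K δ • D l with hE
        have hE4 := h4 E (h l)
        have hz : IsIntegral A (t * (E g / g)) := h3 _ fun v' hv' => by
          obtain ⟨π', hπ'⟩ := h1 v' hv'
          exact val_logder_le v' p π' hπ' E (hE4 v' hv') k r hk t g u w
            (h2 v' hv' _ isIntegral_algebraMap) e1 e2 hg0
        have hvt : v t ≤ 1 := h2 v hv _ isIntegral_algebraMap
        have hp1 := val_der_pole v p π hπ E (hE4 v hv) k r hk t g u hvt e1 hg
        have hp2 : v (t * (E g / g)) ≤ exp (-C : ℤ) := by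
          rw [mul_comm, ← div_le_iff₀ (zero_lt_one.trans hg), ← map_div₀] at hp1
          rw [map_mul]
          calc v t * v (E g / g) ≤ 1 * exp (2 - (p ^ r : ℕ) : ℤ) := by gcongr
            _ ≤ exp (-C : ℤ) := by rw [one_mul, exp_le_exp]; omega
        obtain ⟨ϖ, hϖ, hI3⟩ := h5 v hv
        obtain ⟨a, ha, ha2⟩ := hI3 _ C hz hp2
        have hz0 : t * (E g / g) ≠ 0 := by
          refine mul_ne_zero (alg_ne_zero A L K hτ) (div_ne_zero ?_ hg0)
          rw [hE, Derivation.smul_apply, smul_eq_mul]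
          exact mul_ne_zero (alg_ne_zero A L K hδ) hDg
        have ha0 : a ≠ 0 := by
          rintro rfl
          rw [map_zero, eq_comm, Algebra.norm_eq_zero_iff] at ha2
          exact hz0 ha2
        have h6 := hvi ϖ a C hϖ ha ha0
        have h7 : t * (E g / g) = algebraMap L K (κ l) * (algebraMap L K (ε l) * (D l g / g)) := by
          have : algebraMap L K (ε l) ≠ 0 := by simpa using hε l
          rw [hE, Derivation.smul_apply, smul_eq_mul, map_div₀, ← IsScalarTower.algebraMap_apply,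
            map_mul, ← ht]
          field_simp
        rw [ha2, h7, map_mul, Algebra.norm_algebraMap, map_mul] at h6
        refine absurd (h6.trans ?_) (not_le.2 (hC l))
        calc _ ≤ vi (κ l ^ Module.finrank L K) * 1 := by gcongr; exact hinf l g hg0
          _ = _ := mul_one _
  by_contra hlt
  refine key (log (v T)).toNat 0 hr T u w (by simpa using e1) (by simpa using e2) (not_le.1 hlt) ?_
  exact le_exp_of_log_le (by omega)

theorem integral_of_pow (vi : Valuation L ℤᵐ⁰)
    (hvi : ∀ (π a : A) (k : ℕ), Prime π → π ^ k ∣ a → a ≠ 0 → exp (k : ℤ) ≤ vi (algebraMap A L a))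
    (δ : A) (hδ : δ ≠ 0) : ∃ k, ∀ x : K,
    IsIntegral A (algebraMap A K δ * x ^ k) → IsIntegral A x := by
  obtain ⟨S, h1, h2, h3, -, h5⟩ := exists_places A L K
  obtain ⟨C, hC⟩ := exists_bound fun _ : Unit => vi (Algebra.norm L (algebraMap A K δ))
  refine ⟨C, fun x hx => h3 _ fun v hv => ?_⟩
  by_contra hlt
  have h6 := exp_one_le_of_one_lt (not_le.1 hlt)
  have h7 := h2 v hv _ hx
  rw [map_mul, map_pow] at h7
  have h8 : v (algebraMap A K δ) ≤ exp (-C : ℤ) := by
    have h9 : v (algebraMap A K δ) * exp (C : ℤ) ≤ 1 := by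
      refine le_trans ?_ h7
      gcongr
      calc exp (C : ℤ) = exp 1 ^ C := by rw [← exp_nsmul]; simp
        _ ≤ v x ^ C := by gcongr
    rwa [exp_neg, ← one_div, le_div_iff₀ exp_pos]
  obtain ⟨ϖ, hϖ, hI3⟩ := h5 v hv
  obtain ⟨a, ha, ha2⟩ := hI3 _ C isIntegral_algebraMap h8
  have ha0 : a ≠ 0 := by
    rintro rfl
    rw [map_zero, eq_comm, Algebra.norm_eq_zero_iff] at ha2
    exact alg_ne_zero A L K hδ ha2
  have h10 := hvi ϖ a C hϖ ha ha0
  rw [ha2] at h10
  exact absurd h10 (not_le.2 (hC ()))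

end Pool.Agent.MP_28f2cb_lc.H93
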