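import Pool.Agent.MP_28f2cb_lc.H93.Wound
import Pool.Agent.MP_28f2cb_lc.H93.Der
import Pool.Agent.MP_28f2cb_lc.H93.Pheidas
import Pool.Agent.MP_28f2cb_lc.H94.Main

/-
The integral closure of a polynomial ring is Diophantine in a finite separable extension of its
field of fractions.
-/

namespace Pool.Agent.MP_28f2cb_lc.H93

open Finset

variable {σ : Type} [Fintype σ] [DecidableEq σ]

/-- the equations of Pheidas. -/
def Ph {K : Type*} [CommRing K] (N : ℕ) (t T : K) : Prop :=
  ∃ u w : K, T - t = u ^ N - u ∧ t - T = (w ^ N - w) * t * T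

/-- the whole system. -/
def Sys {K : Type*} [CommRing K] (N M : ℕ) (t : σ → K) (x : K) : Prop :=
  ∃ (T S : σ → K) (y : K), (∀ i, Ph N (t i) (T i)) ∧ (∀ i, Ph N (t i) (S i)) ∧
    Qu N (M + 2) (M + 1) t T (mon T (fun _ => M + 1) * y) y ∧
    Qu N (M + 2) M t (fun i => S i ^ M) y x

section
variable {K : Type*} [Field K] {t : σ → K} {α : Type}

omit [DecidableEq σ] in
theorem pf_mon {T : σ → (α → K) → K} (hT : ∀ i, T i ∈ PF t α) (j : σ → ℕ) :
    (fun v => mon (fun i => T i v) j) ∈ PF t α :=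
  PF.prod _ fun i _ => PF.pow (hT i) _

theorem dp_qu (hq : An t) (N : ℕ) {d m : ℕ} (hm : m < d) {T : σ → (α → K) → K}
    {I O : (α → K) → K} (hT : ∀ i, T i ∈ PF t α) (hI : I ∈ PF t α) (hO : O ∈ PF t α) :
    Dp t α fun x => Qu N d m t (fun i => T i x) (I x) (O x) := by
  let b : (σ → ℕ) → (α ⊕ dg σ d → K) → K := fun j v =>
    if h : j ∈ dg σ d then v (.inr ⟨j, h⟩) else 0
  have hb : ∀ j, b j ∈ PF t (α ⊕ dg σ d) := fun j => by
    by_cases h : j ∈ dg σ d
    · simp only [b, dif_pos h]; exact PF.var _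
    · simp only [b, dif_neg h]; exact PF.zero
  have hl : ∀ {f : (α → K) → K}, f ∈ PF t α →
      (fun v : α ⊕ dg σ d → K => f fun i => v (.inl i)) ∈ PF t (α ⊕ dg σ d) :=
    fun hf => PF.comp hf fun _ => PF.var _
  have h1 : Dp t (α ⊕ dg σ d) fun v =>
      ∑ j ∈ dg σ d, mon t j * b j v ^ N = (I fun i => v (.inl i)) +
        ∑ j ∈ (dg σ d).erase (fun _ => m), mon (fun l => T l fun i => v (.inl i)) j * b j v ∧
      b (fun _ => m) v = O fun i => v (.inl i) :=
    Dp.and hq (Dp.eq (PF.sum _ fun j _ => PF.mul (pf_mon (fun i => PF.par i) j) (PF.pow (hb j) N))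
      (PF.add (hl hI) (PF.sum _ fun j _ => PF.mul (pf_mon (fun l => hl (hT l)) j) (hb j))))
      (Dp.eq (hb _) (hl hO))
  refine h1.ex.congr fun x => ⟨?_, ?_⟩
  · rintro ⟨c, hc, hc2⟩
    have h2 : ∀ j ∈ dg σ d, b j (Sum.elim x fun i => c i) = c j := fun j hj => dif_pos hj
    refine ⟨fun i => c i, ?_, (h2 _ (mem_dg.2 fun _ => hm)).trans hc2⟩
    rw [sum_congr rfl fun j hj => by rw [h2 j hj],
      sum_congr rfl (s₂ := (dg σ d).erase fun _ => m) fun j hj => by
        rw [h2 j (mem_of_mem_erase hj)]]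
    exact hc
  · rintro ⟨z, hz⟩
    exact ⟨fun j => b j (Sum.elim x z), hz⟩

omit [Fintype σ] [DecidableEq σ] in
theorem dp_ph (hq : An t) (N : ℕ) (i : σ) {T : (α → K) → K} (hT : T ∈ PF t α) :
    Dp t α fun x => Ph N (t i) (T x) := by
  have hl : (fun v : α ⊕ Bool → K => T fun i => v (.inl i)) ∈ PF t (α ⊕ Bool) :=
    PF.comp hT fun _ => PF.var _
  have hv : ∀ j : Bool, (fun v : α ⊕ Bool → K => v (.inr j) ^ N - v (.inr j)) ∈ PF t (α ⊕ Bool) :=
    fun j => PF.sub (PF.pow (PF.var _) N) (PF.var _)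
  have h1 := Dp.and hq (Dp.eq (PF.sub hl (PF.par i)) (hv true))
    (Dp.eq (PF.sub (PF.par i) hl) (PF.mul (PF.mul (hv false) (PF.par i)) hl))
  refine h1.ex.congr fun x => ⟨?_, ?_⟩
  · rintro ⟨u, w, h⟩
    exact ⟨fun j => bif j then u else w, h⟩
  · rintro ⟨z, hz⟩
    exact ⟨_, _, hz⟩

theorem dp_sys (hq : An t) (N M : ℕ) {f : (α → K) → K} (hf : f ∈ PF t α) :
    Dp t α fun x => Sys N M t (f x) := by
  have hv : ∀ i : σ ⊕ σ ⊕ Unit,
      (fun v : α ⊕ σ ⊕ σ ⊕ Unit → K => v (.inr i)) ∈ PF t (α ⊕ σ ⊕ σ ⊕ Unit) := fun i => PF.var _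
  have h1 := Dp.and hq (Dp.all hq univ fun i => dp_ph hq N i (hv (.inl i)))
    (Dp.and hq (Dp.all hq univ fun i => dp_ph hq N i (hv (.inr (.inl i))))
      (Dp.and hq (dp_qu hq N (show M + 1 < M + 2 by omega) (fun i => hv (.inl i))
          (PF.mul (pf_mon (fun i => hv (.inl i)) fun _ => M + 1) (hv (.inr (.inr ()))))
          (hv (.inr (.inr ()))))
        (dp_qu hq N (show M < M + 2 by omega) (fun i => PF.pow (hv (.inr (.inl i))) M)
          (hv (.inr (.inr ()))) (PF.comp hf fun i => PF.var (.inl i)))))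
  refine h1.ex.congr fun x => ⟨?_, ?_⟩
  · rintro ⟨T, S, y, a1, a2, h⟩
    exact ⟨Sum.elim T (Sum.elim S fun _ => y), fun i _ => a1 i, fun i _ => a2 i, h⟩
  · rintro ⟨z, a1, a2, h⟩
    exact ⟨_, _, _, fun i => a1 i (mem_univ i), fun i => a2 i (mem_univ i), h⟩

theorem ph_sol (p k : ℕ) [Fact p.Prime] [CharP K p] {τ : K} (hτ : τ ≠ 0) (s : ℕ) :
    Ph (p ^ k) τ (τ ^ (p ^ k) ^ s) := by
  obtain ⟨u, hu⟩ := H49.as_iter p k τ s
  obtain ⟨w, hw⟩ := H49.as_iter p k τ⁻¹ s
  refine ⟨u, w, hu, ?_⟩
  rw [← hw, inv_pow]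
  have := pow_ne_zero ((p ^ k) ^ s) hτ
  field_simp

theorem sys_poly [Nonempty σ] (p k : ℕ) [hp : Fact p.Prime] [CharP K p] (hk : 0 < k) {F : Type*}
    [Field F] [Algebra (ZMod p) F] [Algebra.IsAlgebraic (ZMod p) F]
    (φ : MvPolynomial σ F →+* K) (hφ : ∀ i, φ (MvPolynomial.X i) ≠ 0) (f : MvPolynomial σ F) :
    Sys (p ^ (k + k)) (p ^ k) (fun i => φ (MvPolynomial.X i)) (φ f) := by
  have : CharP F p := charP_of_injective_ringHom (algebraMap (ZMod p) F).injective p
  choose r hr0 hr using H49.frob_period (F := F) p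
  set e := f.totalDegree with he
  set R := ∏ n ∈ f.support, r (f.coeff n) with hR
  have hR0 : 0 < R := prod_pos fun n _ => hr0 _
  have hle : 2 * e + 2 ≤ R * (2 * e + 2) := Nat.le_mul_of_pos_left _ hR0
  set P := R * (2 * e + 2) - 1 with hP
  set t : σ → K := fun i => φ (MvPolynomial.X i) with ht
  have hN : p ^ (k + k) ≠ 0 := pow_ne_zero _ hp.out.ne_zero
  have key : ∀ s ⊆ f.support, ∃ y : K,
      Qu (p ^ (k + k)) (p ^ k + 2) (p ^ k + 1) t (fun i => t i ^ (p ^ (k + k)) ^ P)
        (mon (fun i => t i ^ (p ^ (k + k)) ^ P) (fun _ => p ^ k + 1) * y) y ∧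
      Qu (p ^ (k + k)) (p ^ k + 2) (p ^ k) t (fun i => (t i ^ (p ^ (k + k)) ^ e) ^ p ^ k) y
        (∑ n ∈ s, φ (MvPolynomial.C (f.coeff n)) * mon t n) := by
    intro s
    induction s using Finset.induction_on with
    | empty =>
      refine fun _ => ⟨0, ?_, ?_⟩
      · rw [mul_zero]; exact Qu.zero hN _ _ _ _
      · rw [sum_empty]; exact Qu.zero hN _ _ _ _
    | insert n s hn ih =>
      intro hs
      obtain ⟨y, h1, h2⟩ := ih ((subset_insert n s).trans hs)
      have hn2 := hs (mem_insert_self n s)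
      obtain ⟨z, h3, h4⟩ := mono_sol p k t (φ (MvPolynomial.C (f.coeff n))) e P n
        (fun i => ((MvPolynomial.monomial_le_degreeOf i hn2).trans
          (MvPolynomial.degreeOf_le_totalDegree f i)).trans_lt
            (Nat.lt_pow_self (Nat.one_lt_pow (by omega) hp.out.one_lt))) (by omega) (by
          obtain ⟨d, hd⟩ : r (f.coeff n) ∣ R := dvd_prod_of_mem _ hn2
          rw [← map_pow, ← map_pow, hP, Nat.sub_add_cancel (by omega), ← pow_mul, hd,
            show (k + k) * (r (f.coeff n) * d * (2 * e + 2)) =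
              r (f.coeff n) * ((k + k) * d * (2 * e + 2)) by ring, pow_mul p,
            H49.pow_period (hr _)])
      refine ⟨z + y, ?_, ?_⟩
      · rw [mul_add]; exact Qu.add p _ h3 h1
      · rw [sum_insert hn]; exact Qu.add p _ h4 h2
  obtain ⟨y, h1, h2⟩ := key _ (Subset.refl _)
  have h3 : ∑ n ∈ f.support, φ (MvPolynomial.C (f.coeff n)) * mon t n = φ f := by
    conv_rhs => rw [f.as_sum, map_sum]
    refine sum_congr rfl fun n _ => ?_
    rw [MvPolynomial.monomial_eq, Finsupp.prod_fintype _ _ (by simp), map_mul]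
    simp [mon, ht]
  rw [h3] at h2
  exact ⟨_, _, y, fun i => ph_sol p _ (hφ i) P, fun i => ph_sol p _ (hφ i) e, h1, h2⟩

end

theorem exists_monic (A L K : Type*) [CommRing A] [IsDomain A] [IsIntegrallyClosed A] [Field L]
    [Field K] [Algebra A L] [IsFractionRing A L] [Algebra A K] [Algebra L K] [IsScalarTower A L K]
    [FiniteDimensional L K] {x : K} (hx : IsIntegral A x) : ∃ a : ℕ → A,
    x ^ Module.finrank L K + ∑ i ∈ range (Module.finrank L K), algebraMap A K (a i) * x ^ i = 0 := by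
  set d := Module.finrank L K
  have hm := minpoly.monic hx
  have h1 : (minpoly A x).natDegree ≤ d := by
    rw [← hm.natDegree_map (algebraMap A L), ← minpoly.isIntegrallyClosed_eq_field_fractions' L hx]
    exact minpoly.natDegree_le x
  let g := minpoly A x * Polynomial.X ^ (d - (minpoly A x).natDegree)
  have hg : g.Monic := hm.mul (Polynomial.monic_X_pow _)
  have hd : g.natDegree = d := by
    rw [hm.natDegree_mul (Polynomial.monic_X_pow _), Polynomial.natDegree_X_pow]; omega
  have h2 : Polynomial.aeval x g = 0 := by simp [g]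
  rw [hg.as_sum, hd] at h2
  exact ⟨g.coeff, by simpa [map_sum] using h2⟩

open MvPolynomial WithZero

variable (F L K : Type*) (σ) [Field F] [Field L] [Field K]
  [Algebra (MvPolynomial σ F) L] [IsFractionRing (MvPolynomial σ F) L]
  [Algebra (MvPolynomial σ F) K] [Algebra L K] [IsScalarTower (MvPolynomial σ F) L K]
  [FiniteDimensional L K]

include L in
omit [Fintype σ] [DecidableEq σ] in
theorem aniso [Nonempty σ] : An fun i : σ => algebraMap (MvPolynomial σ F) K (X i) := by
  obtain ⟨i⟩ := ‹Nonempty σ›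
  obtain ⟨vi, hX, -, -⟩ := exists_vi F L σ
  refine ⟨Module.finrank L K + 1, i, fun a b => ⟨fun h => ?_, ?_⟩⟩
  · by_cases hb : b = 0
    · subst hb
      simpa using h
    · exfalso
      have h0 : (a / b) ^ (Module.finrank L K + 1) = algebraMap (MvPolynomial σ F) K (X i) := by
        rw [div_pow, div_eq_iff (pow_ne_zero _ hb)]
        exact sub_eq_zero.1 h
      have h1 := congrArg (fun z => vi (Algebra.norm L z)) h0
      simp only [map_pow] at h1
      rw [IsScalarTower.algebraMap_apply _ L K, Algebra.norm_algebraMap, map_pow, hX] at h1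
      have h2 := congrArg log h1
      rw [log_pow, log_pow, log_exp, nsmul_eq_mul, nsmul_eq_mul, mul_one] at h2
      have := Nat.le_of_dvd Module.finrank_pos (Int.natCast_dvd_natCast.1 ⟨_, h2.symm⟩)
      omega
  · rintro ⟨rfl, rfl⟩
    simp

include L in
theorem dp_sep [Nonempty σ] [Algebra.IsSeparable L K] (p : ℕ) [hp : Fact p.Prime]
    [Algebra (ZMod p) F] [Algebra.IsAlgebraic (ZMod p) F] :
    Dp (fun i : σ => algebraMap (MvPolynomial σ F) K (X i)) Unit
      fun x => IsIntegral (MvPolynomial σ F) (x ()) := by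
  have : CharP F p := charP_of_injective_ringHom (algebraMap (ZMod p) F).injective p
  have : CharP L p := charP_of_injective_algebraMap (IsFractionRing.injective (MvPolynomial σ F) L) p
  have : CharP K p := charP_of_injective_algebraMap (algebraMap L K).injective p
  have : PerfectField F := Algebra.IsAlgebraic.perfectField (ZMod p)
  obtain ⟨i0⟩ := ‹Nonempty σ›
  obtain ⟨vi, hX, hvd, hvi⟩ := exists_vi F L σ
  choose D hD using exists_der F L K σ
  set t : σ → K := fun i => algebraMap (MvPolynomial σ F) K (X i) with ht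
  have ht0 : ∀ i, t i ≠ 0 := fun i => alg_ne_zero _ L K (X_ne_zero i)
  have hker : ∀ g, (∀ l, D l g = 0) → ∃ h, g = h ^ p := fun g hg => by
    refine ker_gen p t D (fun i => ?_) (fun i j hj => ?_) univ ?_ hg
    · rw [ht, hD, pderiv_X_self, map_one]
    · rw [ht, hD, pderiv_X_of_ne hj, map_zero]
    · have := mem_gen F L K σ p 1 (Algebra.IsSeparable.isSeparable L g)
      rwa [pow_one, ← coe_univ] at this
  have hs0 : algebraMap (MvPolynomial σ F) L (X i0) ≠ 0 := by
    intro h
    have := hX i0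
    rw [h, map_zero] at this
    exact exp_ne_zero this.symm
  choose C0 hC using fun i => pheidas (MvPolynomial σ F) L K p vi _ (inv_ne_zero hs0)
    (by rw [map_inv₀, hX, ← exp_neg, ← exp_zero, exp_lt_exp]; omega) hvi D
    (fun l q => pderiv l q) hD hvd hker (X i) (X_ne_zero i)
  have hq := aniso σ F L K
  set k := ∑ i, C0 i + Fintype.card σ + 2 with hk
  have hM : k < p ^ k := Nat.lt_pow_self hp.out.one_lt
  have hN : p ^ (k + k) = p ^ k * p ^ k := pow_add _ _ _
  have hdg : ∀ j ∈ dg σ (p ^ k + 2), ∑ i, j i < p ^ (k + k) - 1 := by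
    intro j hj
    have h1 : ∑ i, j i ≤ Fintype.card σ * (p ^ k + 1) := by
      rw [← smul_eq_mul, ← card_univ]
      exact sum_le_card_nsmul _ _ _ fun i _ => Nat.lt_succ_iff.1 (mem_dg.1 hj i)
    have h2 : Fintype.card σ + 3 ≤ p ^ k := by omega
    rw [hN]
    have h3 : Fintype.card σ * (p ^ k + 1) + 2 ≤ p ^ k * p ^ k := by nlinarith
    omega
  have hle : p ^ k ≤ p ^ (k + k) := Nat.pow_le_pow_right hp.out.pos (by omega)
  obtain ⟨δ, hδ, hB⟩ := lemmaB (MvPolynomial σ F) L K p (k + k) (by omega) (dg σ (p ^ k + 2))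
    (mon X) (lemmaA p (k + k) _ hdg)
  simp only [map_mon] at hB
  obtain ⟨n, hn⟩ := integral_of_pow (MvPolynomial σ F) L K vi hvi (δ * (δ * 1)) (by simpa using hδ)
  set N := p ^ (k + k) with hN'
  set M := p ^ k with hM'
  set d := Module.finrank L K with hd
  have hP : ∀ i T, Ph N (t i) T → IsIntegral (MvPolynomial σ F) T := by
    rintro i T ⟨u, w, h1, h2⟩
    have hT : T ≠ 0 := by
      rintro rfl
      exact ht0 i (by simpa using h2)
    have h3 : C0 i ≤ ∑ i, C0 i := single_le_sum (fun _ _ => Nat.zero_le _) (mem_univ i)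
    refine hC i (k + k) (by omega) (by omega) T u w hT h1 ?_
    have := ht0 i
    change T⁻¹ - (t i)⁻¹ = w ^ N - w
    field_simp
    linear_combination h2
  have hmon : ∀ T : σ → K, (∀ i, IsIntegral (MvPolynomial σ F) (T i)) →
      ∀ j, IsIntegral (MvPolynomial σ F) (mon T j) :=
    fun T hT j => IsIntegral.prod _ fun i _ => (hT i).pow _
  have sound : ∀ a : K, Sys N M t (a ^ n) → IsIntegral (MvPolynomial σ F) a := by
    rintro a ⟨T, S, y, a1, a2, ⟨b, hb, rfl⟩, ⟨c, hc, hca⟩⟩
    have m1 : (fun _ => M + 1) ∈ dg σ (M + 2) := mem_dg.2 fun _ => by omega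
    have m2 : (fun _ => M) ∈ dg σ (M + 2) := mem_dg.2 fun _ => by omega
    have h1 := hB 1 b (mon T) 0 one_ne_zero (by simpa using isIntegral_zero)
      (hmon T fun i => hP i _ (a1 i)) (by rw [hb, zero_add, add_sum_erase _ (fun j => mon T j * b j) m1]) _ m1
    have h2 := hB (δ * 1) c (fun j => if j = (fun _ => M) then 0 else mon (fun i => S i ^ M) j)
      (b fun _ => M + 1) (by simpa using hδ) h1
      (fun j => by
        split_ifs
        exacts [isIntegral_zero, hmon _ (fun i => (hP i _ (a2 i)).pow M) j])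
      (by
        rw [hc, ← add_sum_erase _ _ m2, if_pos rfl, zero_mul, zero_add]
        exact congrArg _ (sum_congr rfl fun j hj => by rw [if_neg (mem_erase.1 hj).1])) _ m2
    rw [hca] at h2
    exact hn a h2
  have compl : ∀ f : MvPolynomial σ F, Sys N M t (algebraMap _ K f ^ n) := by
    intro f
    rw [← map_pow]
    exact sys_poly p k (by omega) (algebraMap _ K) ht0 _
  have h1 : Dp t (Unit ⊕ Fin d) fun v => (∀ i ∈ univ, Sys N M t (v (.inr i) ^ n)) ∧
      v (.inl ()) ^ d + ∑ i : Fin d, v (.inr i) * v (.inl ()) ^ (i : ℕ) = 0 :=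
    Dp.and hq (Dp.all hq univ fun i => dp_sys hq N M (PF.pow (PF.var _) n))
      (Dp.eq (PF.add (PF.pow (PF.var _) d)
        (PF.sum _ fun i _ => PF.mul (PF.var _) (PF.pow (PF.var _) _))) PF.zero)
  refine h1.ex.congr fun x => ⟨fun hx => ?_, ?_⟩
  · obtain ⟨a, ha⟩ := exists_monic _ L K hx
    refine ⟨fun i => algebraMap _ K (a i), fun i _ => compl _, ?_⟩
    rw [sum_range] at ha
    exact ha
  · rintro ⟨z, hz, hz2⟩
    have hd0 : (∑ i : Fin d, Polynomial.C (z i) * Polynomial.X ^ (i : ℕ)).degree < (d : WithBot ℕ) :=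
      Polynomial.degree_sum_fin_lt z
    refine H94.integral_of_root
      (Polynomial.X ^ d + ∑ i : Fin d, Polynomial.C (z i) * Polynomial.X ^ (i : ℕ))
      (Polynomial.monic_X_pow_add hd0) (fun i => ?_) ?_
    · rw [Polynomial.coeff_add, Polynomial.finsetSum_coeff, Polynomial.coeff_X_pow]
      refine IsIntegral.add ?_ (IsIntegral.sum _ fun j _ => ?_)
      · split_ifs
        exacts [isIntegral_one, isIntegral_zero]
      · rw [Polynomial.coeff_C_mul_X_pow]
        split_ifs
        exacts [sound _ (hz j (mem_univ _)), isIntegral_zero]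
    · simpa [Polynomial.eval_finsetSum] using hz2

include L in
theorem dp_all (p : ℕ) [hp : Fact p.Prime] [Algebra (ZMod p) F] [Algebra.IsAlgebraic (ZMod p) F] :
    Dp (fun i : σ => algebraMap (MvPolynomial σ F) K (X i)) Unit
      fun x => IsIntegral (MvPolynomial σ F) (x ()) := by
  have : CharP F p := charP_of_injective_ringHom (algebraMap (ZMod p) F).injective p
  have : CharP L p := charP_of_injective_algebraMap (IsFractionRing.injective (MvPolynomial σ F) L) p
  have : CharP K p := charP_of_injective_algebraMap (algebraMap L K).injective p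
  have : PerfectField F := Algebra.IsAlgebraic.perfectField (ZMod p)
  rcases isEmpty_or_nonempty σ with h0 | h0
  · refine (Dp.eq PF.zero PF.zero).congr fun x => ⟨fun _ => rfl, fun _ => ?_⟩
    have h1 : IsField (MvPolynomial σ F) :=
      (isEmptyRingEquiv F σ).toMulEquiv.isField (Field.toIsField F)
    have h2 : Algebra.IsIntegral (MvPolynomial σ F) L :=
      Algebra.isIntegral_of_surjective (h1.localization_map_bijective (Rₘ := L)
        (M := nonZeroDivisors _) zero_notMem_nonZeroDivisors).2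
    exact isIntegral_trans (A := L) _ (Algebra.IsIntegral.isIntegral _)
  let E := separableClosure L K
  have : CharP E p := charP_of_injective_algebraMap (algebraMap L E).injective p
  have : IsScalarTower (MvPolynomial σ F) E K := .of_algebraMap_eq fun _ => rfl
  obtain ⟨n, hn⟩ := (IsPurelyInseparable.hasExponent_iff' E K p).1 inferInstance
  have hq := aniso σ F L K
  have hE : Dp (fun i : σ => algebraMap (MvPolynomial σ F) K (X i)) Unit
      fun x => x () ∈ (algebraMap E K).range := by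
    refine (dp_gen p n _ hq univ).congr fun x => ⟨?_, fun hx => ?_⟩
    · rintro ⟨z, hz⟩
      rw [coe_univ, ← hz]
      exact mem_gen F L K σ p n z.2
    · refine (Subfield.closure_le (t := (algebraMap E K).fieldRange)).2 ?_ hx
      rintro _ (⟨y, rfl⟩ | ⟨i, -, rfl⟩)
      · exact hn y
      · exact ⟨algebraMap (MvPolynomial σ F) E (X i), rfl⟩
  have h1 := Dp.rel (algebraMap E K) (s := fun i : σ => algebraMap (MvPolynomial σ F) E (X i))
    hq hE (dp_sep σ F L E p)
  refine (h1.comp (f := fun _ v => v () ^ p ^ n) fun _ => PF.pow (PF.var _) _).congr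
    fun x => ⟨fun hx => ?_, ?_⟩
  · obtain ⟨z, hz⟩ := hn (x ())
    refine ⟨z, hz, ?_⟩
    rw [← isIntegral_algebraMap_iff (algebraMap E K).injective, hz]
    exact hx.pow _
  · rintro ⟨z, hz, hz2⟩
    refine IsIntegral.of_pow (pow_pos hp.out.pos n) ?_
    have h2 : algebraMap E K z = x () ^ p ^ n := hz
    rw [← h2]
    exact hz2.algebraMap

end Pool.Agent.MP_28f2cb_lc.H93
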