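import Pool.Agent.MP_28f2cb_lc.H94.Places

/-
The places of a finite separable extension above the prime elements of a factorial domain.
-/

namespace Pool.Agent.MP_28f2cb_lc.H93

open WithZero

variable (A L K : Type*) [CommRing A] [IsDomain A] [IsNoetherianRing A]
  [UniqueFactorizationMonoid A] [Field L] [Field K] [Algebra A L]
  [IsFractionRing A L] [Algebra A K] [Algebra L K] [IsScalarTower A L K]
  [FiniteDimensional L K] [Algebra.IsSeparable L K]

include L in
theorem exists_gens : ∃ (n : ℕ) (ω : Fin n → K), (∀ i, IsIntegral A (ω i)) ∧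
    ∀ x, IsIntegral A x → ∃ a : Fin n → A, x = ∑ i, algebraMap A K (a i) * ω i := by
  have : Module.Finite A (integralClosure A K) := IsIntegralClosure.finite A L K _
  obtain ⟨n, s, hs⟩ := Module.Finite.exists_fin (R := A) (M := integralClosure A K)
  refine ⟨n, fun i => s i, fun i => (s i).2, fun x hx => ?_⟩
  have h : (⟨x, hx⟩ : integralClosure A K) ∈ Submodule.span A (Set.range s) := by
    rw [hs]; trivial
  obtain ⟨c, hc⟩ := (Submodule.mem_span_range_iff_exists_fun A).1 h
  refine ⟨c, ?_⟩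
  have := congrArg (Subalgebra.val _) hc
  simpa [Algebra.smul_def] using this.symm

include L in
theorem exists_delta {ι : Type*} [Finite ι] (D : ι → Derivation ℤ K K)
    (hD : ∀ l, ∀ a : A, IsIntegral A (D l (algebraMap A K a))) :
    ∃ δ : A, δ ≠ 0 ∧ ∀ l x, IsIntegral A x → IsIntegral A (algebraMap A K δ * D l x) := by
  classical
  have := Fintype.ofFinite ι
  obtain ⟨n, ω, hω, h⟩ := exists_gens A L K
  obtain ⟨δ, hδ, h1⟩ := exists_integral_multiples A L
    (Finset.univ.image fun li : ι × Fin n => D li.1 (ω li.2))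
  have h2 : ∀ l i, IsIntegral A (algebraMap A K δ * D l (ω i)) := fun l i => by
    simpa [Algebra.smul_def] using h1 (D l (ω i)) (Finset.mem_image.2 ⟨(l, i), by simp, rfl⟩)
  refine ⟨δ, hδ, fun l x hx => ?_⟩
  obtain ⟨a, rfl⟩ := h x hx
  rw [map_sum, Finset.mul_sum]
  refine IsIntegral.sum _ fun i _ => ?_
  rw [Derivation.leibniz, smul_eq_mul, smul_eq_mul, mul_add, mul_left_comm]
  exact (isIntegral_algebraMap.mul (h2 l i)).add
    (isIntegral_algebraMap.mul ((hω i).mul (hD l _)))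

variable {A} in
/-- the elements not divisible by a prime element. -/
def nd {π : A} (hπ : Prime π) : Submonoid A where
  carrier := {s | ¬π ∣ s}
  one_mem' := hπ.not_dvd_one
  mul_mem' := fun {_ _} ha hb h => (hπ.dvd_or_dvd h).elim ha hb

omit [IsNoetherianRing A] [UniqueFactorizationMonoid A] in
theorem nd_le {π : A} (hπ : Prime π) : nd hπ ≤ nonZeroDivisors A := fun s hs =>
  mem_nonZeroDivisors_of_ne_zero (by rintro rfl; exact hs (dvd_zero π))

variable {A} in
/-- the local ring at a prime element. -/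
noncomputable def loc {π : A} (hπ : Prime π) : Subalgebra A L :=
  Localization.subalgebra.ofField L (nd hπ) (nd_le A hπ)

instance {π : A} (hπ : Prime π) : IsLocalization (nd hπ) (loc L hπ) :=
  Localization.subalgebra.isLocalization_ofField L _ _

omit [IsNoetherianRing A] [UniqueFactorizationMonoid A] in
theorem loc_facts {π : A} (hπ : Prime π) : IsLocalRing (loc L hπ) ∧
    (∀ I : Ideal (loc L hπ), I.IsMaximal → I = Ideal.span {algebraMap A (loc L hπ) π}) ∧
    ¬IsUnit (algebraMap A (loc L hπ) π) := by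
  have hP : (Ideal.span {π}).IsPrime := (Ideal.span_singleton_prime hπ.ne_zero).2 hπ
  have e : (Ideal.span {π}).primeCompl = nd hπ := by
    ext s
    exact not_congr Ideal.mem_span_singleton
  have h1 : IsLocalization.AtPrime (loc L hπ) (Ideal.span {π}) := by
    rw [IsLocalization.AtPrime, e]; infer_instance
  have h2 := IsLocalization.AtPrime.isLocalRing (loc L hπ) (Ideal.span {π})
  have h3 := IsLocalization.AtPrime.map_eq_maximalIdeal (Ideal.span {π}) (loc L hπ)
  rw [Ideal.map_span, Set.image_singleton] at h3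
  refine ⟨h2, fun I hI => (IsLocalRing.eq_maximalIdeal hI).trans h3.symm, ?_⟩
  rw [← mem_nonunits_iff, ← IsLocalRing.mem_maximalIdeal, ← h3]
  exact Ideal.subset_span rfl

omit [UniqueFactorizationMonoid A] in
theorem loc_dvr {π : A} (hπ : Prime π) : IsDiscreteValuationRing (loc L hπ) := by
  obtain ⟨h1, h2, h3⟩ := loc_facts A L hπ
  have : IsNoetherianRing (loc L hπ) := IsLocalization.isNoetherianRing (nd hπ) _ inferInstance
  have h4 : ¬IsField (loc L hπ) := fun h => by
    obtain ⟨b, hb⟩ := h.mul_inv_cancel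
      ((map_ne_zero_iff _ (IsLocalization.injective (loc L hπ) (nd_le A hπ))).2 hπ.ne_zero)
    exact h3 (IsUnit.of_mul_eq_one _ hb)
  refine ((IsDiscreteValuationRing.TFAE (loc L hπ) h4).out 0 4).2 ?_
  rw [h2 _ (IsLocalRing.maximalIdeal.isMaximal _)]
  exact ⟨⟨_, rfl⟩⟩

omit [IsNoetherianRing A] in
theorem mem_of_loc (c : L) (h : ∀ (π : A) (hπ : Prime π), c ∈ loc L hπ) :
    ∃ a : A, algebraMap A L a = c := by
  obtain ⟨a, ⟨b, hb⟩, hab, rfl⟩ := IsFractionRing.exists_reduced_fraction A c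
  have hb0 : b ≠ 0 := nonZeroDivisors.ne_zero hb
  have hb1 : algebraMap A L b ≠ 0 := (map_ne_zero_iff _ (IsFractionRing.injective A L)).2 hb0
  by_cases hu : IsUnit b
  · obtain ⟨u, rfl⟩ := hu
    refine ⟨a * ↑u⁻¹, ?_⟩
    rw [IsFractionRing.mk'_eq_div, eq_div_iff hb1, ← map_mul]
    simp
  obtain ⟨π, hπ, hd⟩ := WfDvdMonoid.exists_irreducible_factor hu hb0
  obtain ⟨a', s, hs, e⟩ := h π hπ.prime
  have hs1 : algebraMap A L s ≠ 0 := (map_ne_zero_iff _ (IsFractionRing.injective A L)).2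
    (nonZeroDivisors.ne_zero (nd_le A _ hs))
  rw [IsFractionRing.mk'_eq_div, ← div_eq_mul_inv, div_eq_div_iff hb1 hs1, ← map_mul,
    ← map_mul] at e
  have e2 : a * s = a' * b := IsFractionRing.injective A L e
  have h1 : π ∣ a * s := e2 ▸ hd.mul_left a'
  exact absurd (hab ((hπ.prime.dvd_or_dvd h1).resolve_right hs) hd) hπ.not_isUnit

theorem exists_places : ∃ S : Set (Valuation K ℤᵐ⁰),
    (∀ v ∈ S, ∃ π, v π = exp (-1 : ℤ)) ∧
    (∀ v ∈ S, ∀ x, IsIntegral A x → v x ≤ 1) ∧
    (∀ x, (∀ v ∈ S, v x ≤ 1) → IsIntegral A x) ∧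
    (∀ E : Derivation ℤ K K, (∀ x, IsIntegral A x → IsIntegral A (E x)) →
      ∀ v ∈ S, ∀ x, v x ≤ 1 → v (E x) ≤ 1) ∧
    (∀ v ∈ S, ∃ π : A, Prime π ∧
      ∀ (z : K) (k : ℕ), IsIntegral A z → v z ≤ exp (-k : ℤ) →
        ∃ a : A, π ^ k ∣ a ∧ algebraMap A L a = Algebra.norm L z) := by
  have hd := fun π : {π : A // Prime π} => loc_dvr A L π.2
  choose S h1 h2 h3 h4 h5 using fun π : {π : A // Prime π} =>
    H94.exists_places (loc L π.2) L K
  have ht : ∀ (π : {π : A // Prime π}) (x : K), IsIntegral A x → IsIntegral (loc L π.2) x :=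
    fun π x hx => hx.tower_top
  refine ⟨⋃ π, S π, ?_, ?_, ?_, ?_, ?_⟩
  · rintro v ⟨_, ⟨π, rfl⟩, hv⟩
    exact h1 π v hv
  · rintro v ⟨_, ⟨π, rfl⟩, hv⟩ x hx
    exact h2 π v hv x (ht π x hx)
  · intro x hx
    have hc : ∀ i, ∃ a : A, algebraMap A L a = (minpoly L x).coeff i := fun i =>
      mem_of_loc A L _ fun π hπ => by
        have := loc_dvr A L hπ
        have h6 := h3 ⟨π, hπ⟩ x fun v hv => hx v (Set.mem_iUnion.2 ⟨_, hv⟩)
        rw [minpoly.isIntegrallyClosed_eq_field_fractions' L h6, Polynomial.coeff_map]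
        exact Subtype.property _
    have hm := minpoly.monic (Algebra.IsIntegral.isIntegral (R := L) x)
    obtain ⟨g, hg, -, hg2⟩ := Polynomial.lifts_and_natDegree_eq_and_monic
      ((Polynomial.lifts_iff_coeff_lifts (f := algebraMap A L) _).2 hc) hm
    refine ⟨g, hg2, ?_⟩
    rw [IsScalarTower.algebraMap_eq A L K, ← Polynomial.eval₂_map, hg]
    exact minpoly.aeval L x
  · rintro E hE v ⟨_, ⟨π, rfl⟩, hv⟩
    refine h4 π E (fun x hx => ?_) v hv
    obtain ⟨⟨s, hs⟩, h6⟩ := hx.exists_multiple_integral_of_isLocalization (nd π.2)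
    rw [Submonoid.smul_def, Algebra.smul_def] at h6
    have h7 := ht π _ (hE _ h6)
    rw [Derivation.leibniz, smul_eq_mul, smul_eq_mul] at h7
    have h8 := h7.sub (hx.mul (ht π _ (hE _ (isIntegral_algebraMap (x := s)))))
    rw [add_sub_cancel_right] at h8
    obtain ⟨u, hu⟩ := IsLocalization.map_units (loc L π.2) (⟨s, hs⟩ : nd π.2)
    have h9 := (isIntegral_algebraMap (A := K) (x := (↑u⁻¹ : loc L π.2))).mul h8
    rwa [← mul_assoc, IsScalarTower.algebraMap_apply A (loc L π.2) K, ← hu, ← map_mul,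
      Units.inv_mul, map_one, one_mul] at h9
  · rintro v ⟨_, ⟨π, rfl⟩, hv⟩
    obtain ⟨I, hI, -, h6⟩ := h5 π v hv
    refine ⟨π, π.2, fun z k hz hk => ?_⟩
    obtain ⟨b, hb, e⟩ := h6 z k (ht π z hz) hk
    obtain ⟨a, ha⟩ := IsIntegrallyClosed.isIntegral_iff.1 (Algebra.isIntegral_norm L hz)
    refine ⟨a, ?_, ha⟩
    rw [(loc_facts A L π.2).2.1 I hI, Ideal.span_singleton_pow, Ideal.mem_span_singleton] at hb
    obtain ⟨⟨_, c, s, hs, rfl⟩, rfl⟩ := hb
    have hs1 : algebraMap A L s ≠ 0 := (map_ne_zero_iff _ (IsFractionRing.injective A L)).2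
      (nonZeroDivisors.ne_zero (nd_le A _ hs))
    have e2 : algebraMap A L π ^ k * (algebraMap A L c * (algebraMap A L s)⁻¹) =
        algebraMap A L a := e.trans ha.symm
    refine π.2.pow_dvd_of_dvd_mul_left k hs ⟨c, IsFractionRing.injective A L ?_⟩
    rw [map_mul, map_mul, map_pow, ← e2]
    field_simp

end Pool.Agent.MP_28f2cb_lc.H93
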