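import Mathlib

/-! The queue of digits for monomials in several variables. -/

namespace Pool.Agent.MP_28f2cb_lc.H93

open Finset

variable {K : Type*} [CommRing K] {σ : Type} [Fintype σ] [DecidableEq σ]

/-- the monomial with exponent vector `j`. -/
def mon (t : σ → K) (j : σ → ℕ) : K := ∏ i, t i ^ j i

omit [DecidableEq σ] in
theorem mon_add (t : σ → K) (j k : σ → ℕ) : mon t (j + k) = mon t j * mon t k := by
  simp [mon, pow_add, prod_mul_distrib]

omit [DecidableEq σ] in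
theorem mon_pow (t : σ → K) (j : σ → ℕ) (n : ℕ) : mon t j ^ n = mon t (n • j) := by
  simp only [mon, ← prod_pow, ← pow_mul, Pi.smul_apply, smul_eq_mul, mul_comm n]

omit [DecidableEq σ] in
theorem mon_par (t : σ → K) (j : σ → ℕ) (n : ℕ) : mon (fun i => t i ^ n) j = mon t (n • j) := by
  simp only [mon, ← pow_mul, Pi.smul_apply, smul_eq_mul]

omit [DecidableEq σ] in
theorem map_mon {K' : Type*} [CommRing K'] (f : K →+* K') (t : σ → K) (j : σ → ℕ) :
    f (mon t j) = mon (fun i => f (t i)) j := by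
  simp [mon]

/-- the digits. -/
def dg (σ : Type) [Fintype σ] [DecidableEq σ] (d : ℕ) : Finset (σ → ℕ) :=
  Fintype.piFinset fun _ => range d

theorem mem_dg {d : ℕ} {j : σ → ℕ} : j ∈ dg σ d ↔ ∀ i, j i < d := by
  simp [dg]

/-- The queue equation with base `N`, digits below `d`, marker `m`, source `I`, output `O`. -/
def Qu (N d m : ℕ) (t T : σ → K) (I O : K) : Prop :=
  ∃ b : (σ → ℕ) → K, ∑ j ∈ dg σ d, mon t j * b j ^ N =
    I + ∑ j ∈ (dg σ d).erase (fun _ => m), mon T j * b j ∧ b (fun _ => m) = O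

theorem Qu.zero {N : ℕ} (hN : N ≠ 0) (d m : ℕ) (t T : σ → K) : Qu N d m t T 0 0 :=
  ⟨fun _ => 0, by simp [hN], rfl⟩

theorem Qu.add (p k : ℕ) [Fact p.Prime] [CharP K p] {d m : ℕ} {t T : σ → K} {I O I' O' : K}
    (h : Qu (p ^ k) d m t T I O) (h' : Qu (p ^ k) d m t T I' O') :
    Qu (p ^ k) d m t T (I + I') (O + O') := by
  obtain ⟨b, hb, rfl⟩ := h
  obtain ⟨b', hb', rfl⟩ := h'
  refine ⟨fun j => b j + b' j, ?_, rfl⟩
  simp only [add_pow_char_pow, mul_add, sum_add_distrib]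
  linear_combination hb + hb'

theorem Qu.step {N : ℕ} (hN : N ≠ 0) {d m : ℕ} {j : σ → ℕ} (hj : j ∈ dg σ d)
    (hm : j ≠ fun _ => m) (t T : σ → K) (z : K) :
    Qu N d m t T (mon t j * z ^ N - mon T j * z) 0 := by
  refine ⟨fun i => if i = j then z else 0, ?_, if_neg hm.symm⟩
  rw [sum_eq_single j, sum_eq_single j]
  · simp
  · intro i _ hi; simp [hi]
  · intro h; exact absurd (mem_erase.2 ⟨hm, hj⟩) h
  · intro i _ hi; simp [hi, hN]
  · intro h; exact absurd hj h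

theorem Qu.emit {N : ℕ} (hN : N ≠ 0) {d m : ℕ} (hm : m < d) (t T : σ → K) (z : K) :
    Qu N d m t T (mon t (fun _ => m) * z ^ N) z := by
  refine ⟨fun i => if i = (fun _ => m) then z else 0, ?_, if_pos rfl⟩
  rw [sum_eq_single (fun _ => m), sum_eq_zero]
  · simp
  · intro i hi
    simp [(mem_erase.1 hi).1]
  · intro i _ hi; simp [hi, hN]
  · intro h; exact absurd (mem_dg.2 fun _ => hm) h

/-- `n` has `k` digit vectors in base `N`, with all entries smaller than `b` -/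
def Dig (N b : ℕ) : ℕ → (σ → ℕ) → Prop
  | 0, n => n = 0
  | k + 1, n => ∃ j n', (∀ i, j i < b) ∧ Dig N b k n' ∧ n = j + N • n'

omit [Fintype σ] [DecidableEq σ] in
theorem Dig.mono {N b b' : ℕ} (h : b ≤ b') : ∀ {k : ℕ} {n : σ → ℕ}, Dig N b k n → Dig N b' k n
  | 0, _, h0 => h0
  | _ + 1, _, ⟨d, n', h1, h2, h3⟩ => ⟨d, n', fun i => (h1 i).trans_le h, Dig.mono h h2, h3⟩

omit [Fintype σ] [DecidableEq σ] in
theorem Dig.zero {N b : ℕ} (h : 0 < b) : ∀ k : ℕ, Dig N b k (0 : σ → ℕ)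
  | 0 => rfl
  | k + 1 => ⟨0, 0, fun _ => h, Dig.zero h k, by simp⟩

omit [Fintype σ] [DecidableEq σ] in
theorem Dig.append {N b l : ℕ} {hi : σ → ℕ} (hh : Dig N b l hi) :
    ∀ {k : ℕ} {lo : σ → ℕ}, Dig N b k lo → Dig N b (l + k) (lo + N ^ k • hi)
  | 0, lo, h0 => by
      have : lo = 0 := h0
      subst this
      simpa using hh
  | k + 1, _, ⟨d, n', h1, h2, h3⟩ =>
      ⟨d, n' + N ^ k • hi, h1, Dig.append hh h2, by
        rw [h3]; funext i; simp only [Pi.add_apply, Pi.smul_apply, smul_eq_mul]; ring⟩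

omit [Fintype σ] [DecidableEq σ] in
theorem Dig.split {M : ℕ} (hM : 0 < M) : ∀ (k : ℕ) (n : σ → ℕ), (∀ i, n i < (M * M) ^ k) →
    ∃ lo hi, Dig (M * M) M k lo ∧ Dig (M * M) M k hi ∧ n = M • lo + hi
  | 0, n, h => ⟨0, 0, rfl, rfl, by funext i; simpa using h i⟩
  | k + 1, n, h => by
      have hN : 0 < M * M := Nat.mul_pos hM hM
      obtain ⟨lo, hi, a, b, c⟩ := Dig.split hM k (fun i => n i / (M * M)) fun i => by
        rw [Nat.div_lt_iff_lt_mul hN, ← pow_succ]; exact h i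
      refine ⟨(fun i => n i % (M * M) / M) + (M * M) • lo,
        (fun i => n i % (M * M) % M) + (M * M) • hi,
        ⟨_, _, fun i => ?_, a, rfl⟩, ⟨_, _, fun i => Nat.mod_lt _ hM, b, rfl⟩, ?_⟩
      · rw [Nat.div_lt_iff_lt_mul hM]; exact Nat.mod_lt _ hN
      · funext i
        have h1 := congrFun c i
        have h2 := Nat.mod_add_div (n i) (M * M)
        have h3 := Nat.mod_add_div (n i % (M * M)) M
        simp only [Pi.add_apply, Pi.smul_apply, smul_eq_mul] at h1 ⊢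
        rw [h1] at h2
        linear_combination -h2 - h3

/-- reading `k` ordinary digits -/
theorem Qu.path [Nonempty σ] (p e : ℕ) [Fact p.Prime] [CharP K p] {d m : ℕ} (hm : m < d)
    (κ P : ℕ) (t : σ → K) (c : K) :
    ∀ (k r : ℕ) (lo H : σ → ℕ), k + r = P + 1 → Dig (p ^ e) m k lo →
      Qu (p ^ e) d m t (fun i => t i ^ (κ * (p ^ e) ^ P))
        (c ^ (p ^ e) ^ k * mon t (lo + (p ^ e) ^ k • H) -
          c * mon t (H + (κ * (p ^ e) ^ r) • lo)) 0 := by
  have hN : p ^ e ≠ 0 := pow_ne_zero _ (Fact.out : p.Prime).ne_zero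
  intro k
  induction k with
  | zero =>
    intro r lo H _ h0
    have : lo = 0 := h0
    subst this
    simpa using Qu.zero hN d m t _
  | succ k ih =>
    rintro r _ H hr ⟨j, lo, hj, hlo, rfl⟩
    have hj2 : j ≠ fun _ => m := fun h => by
      obtain ⟨i⟩ := ‹Nonempty σ›
      exact absurd (congrFun h i) (hj i).ne
    have h1 := Qu.step hN (mem_dg.2 fun i => (hj i).trans hm) hj2 t
      (fun i => t i ^ (κ * (p ^ e) ^ P)) (c ^ (p ^ e) ^ k * mon t (lo + (p ^ e) ^ k • H))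
    have h2 := ih (r + 1) lo (H + (κ * (p ^ e) ^ r) • j) (by omega) hlo
    have h3 := Qu.add p e h1 h2
    rw [add_zero] at h3
    obtain rfl : P = k + r := by omega
    generalize p ^ e = N at h3 ⊢
    have e1 : mon t j * (c ^ N ^ k * mon t (lo + N ^ k • H)) ^ N =
        c ^ N ^ (k + 1) * mon t (j + N • lo + N ^ (k + 1) • H) := by
      rw [mul_pow, ← pow_mul, ← pow_succ, mon_pow, mul_left_comm, ← mon_add]
      congr 2; funext i; simp only [Pi.add_apply, Pi.smul_apply, smul_eq_mul]; ring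
    have e2 : mon (fun i => t i ^ (κ * N ^ (k + r))) j * (c ^ N ^ k * mon t (lo + N ^ k • H)) =
        c ^ N ^ k * mon t (lo + N ^ k • (H + (κ * N ^ r) • j)) := by
      rw [mon_par, mul_left_comm, ← mon_add]
      congr 2; funext i; simp only [Pi.add_apply, Pi.smul_apply, smul_eq_mul]; ring
    have e3 : H + (κ * N ^ r) • j + (κ * N ^ (r + 1)) • lo = H + (κ * N ^ r) • (j + N • lo) := by
      funext i; simp only [Pi.add_apply, Pi.smul_apply, smul_eq_mul]; ring
    rw [e1, e2, e3, sub_add_sub_cancel] at h3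
    exact h3

/-- a full run up to the marker -/
theorem Qu.run [Nonempty σ] (p e : ℕ) [Fact p.Prime] [CharP K p] {d m : ℕ} (hm : m < d)
    (κ P : ℕ) (t : σ → K) (c : K) (lo hi : σ → ℕ) (h : Dig (p ^ e) m P lo) :
    Qu (p ^ e) d m t (fun i => t i ^ (κ * (p ^ e) ^ P))
      (c ^ (p ^ e) ^ (P + 1) * mon t (lo + (p ^ e) ^ P • ((fun _ => m) + p ^ e • hi)))
      (c * mon t (κ • lo + hi)) := by
  have hN : p ^ e ≠ 0 := pow_ne_zero _ (Fact.out : p.Prime).ne_zero
  have h1 := Qu.path p e hm κ P t (c ^ p ^ e) P 1 lo ((fun _ => m) + p ^ e • hi) rfl h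
  have h2 := Qu.emit hN hm t (fun i => t i ^ (κ * (p ^ e) ^ P)) (c * mon t (κ • lo + hi))
  have h3 := Qu.add p e h1 h2
  generalize p ^ e = N at h3 ⊢
  have e1 : mon t (fun _ => m) * (c * mon t (κ • lo + hi)) ^ N =
      c ^ N * mon t ((fun _ => m) + N • hi + (κ * N ^ 1) • lo) := by
    rw [mul_pow, mon_pow, mul_left_comm, ← mon_add]
    congr 2; funext i; simp only [Pi.add_apply, Pi.smul_apply, smul_eq_mul]; ring
  rw [e1, sub_add_cancel, zero_add, ← pow_mul, ← pow_succ'] at h3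
  exact h3

/-- both queue equations for one monomial -/
theorem mono_sol [Nonempty σ] (p k : ℕ) [hp : Fact p.Prime] [CharP K p] (t : σ → K) (c : K)
    (e P : ℕ) (n : σ → ℕ) (hn : ∀ i, n i < (p ^ (k + k)) ^ e) (hP : 2 * e + 1 ≤ P)
    (hc : c ^ (p ^ (k + k)) ^ (P + 1) = c) :
    ∃ y : K, Qu (p ^ (k + k)) (p ^ k + 2) (p ^ k + 1) t (fun i => t i ^ (p ^ (k + k)) ^ P)
        (mon (fun i => t i ^ (p ^ (k + k)) ^ P) (fun _ => p ^ k + 1) * y) y ∧
      Qu (p ^ (k + k)) (p ^ k + 2) (p ^ k) t (fun i => (t i ^ (p ^ (k + k)) ^ e) ^ p ^ k) y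
        (c * mon t n) := by
  have hM : 0 < p ^ k := pow_pos hp.out.pos k
  obtain ⟨lo, hi, h1, h2, rfl⟩ := Dig.split hM e n (by rw [← pow_add]; exact hn)
  rw [← pow_add] at h1 h2
  have h0 := Qu.run p (k + k) (show p ^ k < p ^ k + 2 by omega) (p ^ k) e t c lo hi h1
  simp only [mul_comm (p ^ k) ((p ^ (k + k)) ^ e), pow_mul] at h0
  refine ⟨_, ?_, h0⟩
  have h3 : Dig (p ^ (k + k)) (p ^ k + 1) (e + 1) ((fun _ : σ => p ^ k) + p ^ (k + k) • hi) :=
    ⟨_, _, fun _ => by omega, Dig.mono (by omega) h2, rfl⟩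
  have h4 := Dig.append h3 (Dig.mono (show p ^ k ≤ p ^ k + 1 by omega) h1)
  have h5 := Dig.append (Dig.zero (N := p ^ (k + k)) (show 0 < p ^ k + 1 by omega)
    (P - (e + 1 + e))) h4
  rw [smul_zero, add_zero, show P - (e + 1 + e) + (e + 1 + e) = P by omega] at h5
  have h6 := Qu.run p (k + k) (show p ^ k + 1 < p ^ k + 2 by omega) 1 P t
    (c ^ (p ^ (k + k)) ^ (e + 1)) _ 0 h5
  rw [← pow_mul c, mul_comm ((p ^ (k + k)) ^ (e + 1)), pow_mul c, hc, smul_zero, add_zero,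
    add_zero, one_smul, one_mul, mon_add t, ← mon_par] at h6
  rw [mul_left_comm, mul_comm (mon _ fun _ => p ^ k + 1)]
  exact h6

theorem Qu.map {K' : Type*} [CommRing K'] (f : K →+* K') {N d m : ℕ} {t T : σ → K} {I O : K}
    (h : Qu N d m t T I O) : Qu N d m (fun i => f (t i)) (fun i => f (T i)) (f I) (f O) := by
  obtain ⟨b, hb, rfl⟩ := h
  refine ⟨fun j => f (b j), ?_, rfl⟩
  simpa only [map_sum, map_mul, map_pow, map_add, map_mon] using congrArg f hb

end Pool.Agent.MP_28f2cb_lc.H93
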