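import Pool.Agent.MP_28f2cb_lc.H93.Places
import Pool.Agent.MP_28f2cb_lc.H93.Queue

/-
Wound additive equations in several variables.
-/

namespace Pool.Agent.MP_28f2cb_lc.H93

open Finset

section
open MvPolynomial

theorem lemmaA' {F E : Type*} [Field F] [CommRing E] [IsDomain E] {σ : Type} [Fintype σ]
    [DecidableEq σ] (p : ℕ) [hp : Fact p.Prime] [CharP E p] (r : ℕ) (D : Finset (σ → ℕ))
    (hD : ∀ j ∈ D, ∑ i, j i < p ^ r - 1) (W : (σ → ℕ) → MvPolynomial σ F)
    (π : MvPolynomial σ F) (q : MvPolynomial σ F →+* E) (hπ : q π = 0)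
    (h : π ^ (p ^ r - 1) ∣ ∑ j ∈ D, mon X j * W j ^ p ^ r) : ∀ j ∈ D, q (W j) = 0 := by
  let φ : MvPolynomial σ F →+* MvPolynomial σ E :=
    eval₂Hom (C.comp (q.comp C)) fun i => X i + C (q (X i))
  let J := idealOfVars σ E
  have hφ : ∀ a, φ a - C (q a) ∈ J := by
    intro a
    induction a using MvPolynomial.induction_on with
    | C c => simp [φ]
    | add a b ha hb =>
      have := J.add_mem ha hb
      simp only [map_add]
      convert this using 1
      ring
    | mul_X a i ha =>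
      have h1 : φ (a * X i) - C (q (a * X i)) =
          (φ a - C (q a)) * (X i + C (q (X i))) + C (q a) * X i := by
        simp only [map_mul, φ, eval₂Hom_X']
        ring
      rw [h1]
      exact J.add_mem (J.mul_mem_right _ ha) (J.mul_mem_left _ (Ideal.subset_span ⟨i, rfl⟩))
  set N := p ^ r with hN
  let G : MvPolynomial σ E := ∑ j ∈ D, mon (fun i => X i + C (q (X i))) j * C (q (W j) ^ N)
  have hG : G ∈ J ^ (N - 1) := by
    have h1 : φ (∑ j ∈ D, mon X j * W j ^ N) ∈ J ^ (N - 1) := by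
      obtain ⟨c, hc⟩ := h
      rw [hc, map_mul, map_pow]
      refine Ideal.mul_mem_right _ _ (Ideal.pow_mem_pow ?_ _)
      have h2 := hφ π
      rwa [hπ, map_zero, sub_zero] at h2
    have h2 : φ (∑ j ∈ D, mon X j * W j ^ N) - G ∈ J ^ (N - 1) := by
      rw [map_sum, ← sum_sub_distrib]
      refine Ideal.sum_mem _ fun j _ => ?_
      have h3 : φ (mon X j * W j ^ N) - mon (fun i => X i + C (q (X i))) j * C (q (W j) ^ N) =
          mon (fun i => X i + C (q (X i))) j * (φ (W j) - C (q (W j))) ^ N := by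
        rw [map_mul, map_mon, map_pow, map_pow, hN, sub_pow_char_pow, mul_sub]
        simp only [φ, eval₂Hom_X']
      rw [h3]
      exact Ideal.mul_mem_left _ _
        (Ideal.pow_le_pow_right (Nat.sub_le N 1) (Ideal.pow_mem_pow (hφ _) N))
    simpa using Ideal.sub_mem _ h1 h2
  intro j0 hj0
  have hdeg : G.totalDegree < N - 1 := by
    refine (totalDegree_finsetSum _ _).trans_lt ?_
    rw [Finset.sup_lt_iff (lt_of_le_of_lt (Nat.zero_le _) (hD j0 hj0))]
    intro j hj
    refine ((totalDegree_mul _ _).trans ?_).trans_lt (hD j hj)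
    rw [totalDegree_C, add_zero]
    refine (totalDegree_finsetProd _ _).trans (sum_le_sum fun i _ => ?_)
    refine (totalDegree_pow _ _).trans ?_
    have h1 : (X i + C (q (X i)) : MvPolynomial σ E).totalDegree ≤ 1 :=
      (totalDegree_add _ _).trans (by rw [totalDegree_X, totalDegree_C]; simp)
    exact (Nat.mul_le_mul_left _ h1).trans (by simp)
  have hG0 : G = 0 := by
    by_contra h0
    obtain ⟨x, hx⟩ := support_nonempty.2 h0
    have h1 := (mem_pow_idealOfVars_iff _ _).1 hG x hx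
    have h2 : x.degree ≤ G.totalDegree := le_totalDegree hx
    omega
  let ψ : MvPolynomial σ E →+* MvPolynomial σ E := eval₂Hom C fun i => X i - C (q (X i))
  have hψ : ψ G = ∑ j ∈ D, monomial (Finsupp.equivFunOnFinite.symm j) (q (W j) ^ N) := by
    rw [map_sum]
    refine sum_congr rfl fun j _ => ?_
    rw [map_mul, map_mon, monomial_eq, Finsupp.prod_fintype _ _ (by simp), mul_comm]
    simp [ψ, mon]
  have h3 := congrArg (coeff (Finsupp.equivFunOnFinite.symm j0)) hψ
  rw [hG0, map_zero, coeff_zero, coeff_sum, sum_eq_single j0] at h3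
  · rw [coeff_monomial, if_pos rfl] at h3
    exact (pow_eq_zero_iff (pow_ne_zero r hp.out.ne_zero)).1 h3.symm
  · intro j _ hj
    rw [coeff_monomial, if_neg (fun e => hj (Finsupp.equivFunOnFinite.symm.injective e))]
  · exact fun h => absurd hj0 h

theorem lemmaA {F : Type*} [Field F] {σ : Type} [Fintype σ] [DecidableEq σ] (p : ℕ)
    [hp : Fact p.Prime] [CharP F p] (r : ℕ) (D : Finset (σ → ℕ))
    (hD : ∀ j ∈ D, ∑ i, j i < p ^ r - 1) (W : (σ → ℕ) → MvPolynomial σ F)
    (π : MvPolynomial σ F) (hπ : Prime π)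
    (h : π ^ (p ^ r - 1) ∣ ∑ j ∈ D, mon X j * W j ^ p ^ r) : ∀ j ∈ D, π ∣ W j := by
  have hP : (Ideal.span {π}).IsPrime := (Ideal.span_singleton_prime hπ.ne_zero).2 hπ
  have : CharP (MvPolynomial σ F ⧸ Ideal.span {π}) p :=
    charP_of_injective_algebraMap (algebraMap F _).injective p
  intro j hj
  exact Ideal.mem_span_singleton.1 (Ideal.Quotient.eq_zero_iff_mem.1
    (lemmaA' p r D hD W π (Ideal.Quotient.mk (Ideal.span {π}))
      (Ideal.Quotient.eq_zero_iff_mem.2 (Ideal.subset_span rfl)) h j hj))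

end

variable (A L K : Type*) [CommRing A] [IsDomain A] [IsNoetherianRing A]
  [UniqueFactorizationMonoid A] [Field L] [Field K] [Algebra A L]
  [IsFractionRing A L] [Algebra A K] [Algebra L K] [IsScalarTower A L K]
  [FiniteDimensional L K] [Algebra.IsSeparable L K]

omit [IsNoetherianRing A] in
theorem exists_prime_step {Q η : A} (hQ : Q ≠ 0) (hη : η ≠ 0) (h : ¬Q ∣ η) :
    ∃ π : A, Prime π ∧ π ∣ Q ∧ ∀ (n : ℕ) (z R : A), η * z = Q ^ (n + 1) * R → π ^ (n + 1) ∣ z := by
  obtain ⟨Q', η', g, hr, rfl, rfl⟩ := UniqueFactorizationMonoid.exists_reduced_factors Q hQ η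
  have hu : ¬IsUnit Q' := fun hu => h (mul_dvd_mul_left g hu.dvd)
  obtain ⟨π, hπ, c, rfl⟩ :=
    WfDvdMonoid.exists_irreducible_factor hu (right_ne_zero_of_mul hQ)
  refine ⟨π, hπ.prime, ⟨g * c, by ring⟩, fun n z R e => ?_⟩
  have hnd : ¬π ∣ η' := fun hd => hπ.not_isUnit (hr (Dvd.intro _ rfl) hd)
  refine hπ.prime.pow_dvd_of_dvd_mul_left _ hnd ⟨g ^ n * c ^ (n + 1) * R, ?_⟩
  refine mul_left_cancel₀ (left_ne_zero_of_mul hQ) ?_
  rw [← mul_assoc, e]
  ring

include L in
theorem lemmaB (p : ℕ) [hp : Fact p.Prime] [CharP L p] [CharP K p] (r : ℕ) (hr : 2 ≤ p ^ r)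
    {ι : Type*} (D : Finset ι) (τ : ι → A)
    (hA : ∀ (W : ι → A) (π : A), Prime π → π ^ (p ^ r - 1) ∣ ∑ j ∈ D, τ j * W j ^ p ^ r →
      ∀ j ∈ D, π ∣ W j) :
    ∃ δ : A, δ ≠ 0 ∧ ∀ (ε : A) (w a : ι → K) (B : K), ε ≠ 0 →
      IsIntegral A (algebraMap A K ε * B) → (∀ j, IsIntegral A (a j)) →
      ∑ j ∈ D, algebraMap A K (τ j) * w j ^ p ^ r = B + ∑ j ∈ D, a j * w j →
      ∀ j ∈ D, IsIntegral A (algebraMap A K (δ * ε) * w j) := by
  classical
  obtain ⟨s, e, he⟩ := FiniteDimensional.exists_is_basis_integral A L K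
  let e' := e.mapPowExpCharPowOfIsSeparable p r
  have he' : ∀ i, e' i = e i ^ p ^ r := fun i => by
    simp [e', Module.Basis.mapPowExpCharPowOfIsSeparable]
  obtain ⟨n, ω, -, hω⟩ := exists_gens A L K
  obtain ⟨⟨δ, hδ⟩, hδ2⟩ := IsLocalization.exist_integer_multiples_of_finite
    (nonZeroDivisors A) (S := L) fun il : s × Fin n => e'.repr (ω il.2) il.1
  have hδ0 : δ ≠ 0 := nonZeroDivisors.ne_zero hδ
  have hsm : ∀ (q : A) (x : K) i, e'.repr (algebraMap A K q * x) i =
      algebraMap A L q * e'.repr x i := fun q x i => by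
    rw [IsScalarTower.algebraMap_apply A L K, ← Algebra.smul_def, map_smul,
      Finsupp.smul_apply, smul_eq_mul]
  have hc : ∀ x, IsIntegral A x → ∀ i, ∃ q : A,
      algebraMap A L q = algebraMap A L δ * e'.repr x i := by
    intro x hx i
    obtain ⟨a, rfl⟩ := hω x hx
    choose q hq using fun l => hδ2 (i, l)
    refine ⟨∑ l, a l * q l, ?_⟩
    simp only [map_sum, map_mul, Finsupp.finsetSum_apply, mul_sum, hq]
    refine sum_congr rfl fun l _ => ?_
    rw [hsm, Algebra.smul_def]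
    ring
  refine ⟨δ, hδ0, fun ε w a B hε hB ha heq => ?_⟩
  set N := p ^ r with hN
  let ι' := algebraMap A L
  let Pq : A → Prop := fun Q => ∀ j ∈ D, ∀ i, ∃ q, ι' q = ι' Q * e.repr (w j) i
  have hint : ∀ Q, Pq Q → ∀ j ∈ D, IsIntegral A (algebraMap A K Q * w j) := by
    intro Q hQ j hj
    choose q hq using hQ j hj
    rw [← e.sum_repr (w j), mul_sum]
    refine IsIntegral.sum _ fun i _ => ?_
    rw [Algebra.smul_def, IsScalarTower.algebraMap_apply A L K, ← mul_assoc,
      ← map_mul, ← hq, ← IsScalarTower.algebraMap_apply]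
    exact isIntegral_algebraMap.mul (he i)
  have key : ∀ Q : A, Q ≠ 0 → Pq Q → Pq (δ * ε) := by
    intro Q
    induction Q using (wellFounded_dvdNotUnit (α := A)).induction with
    | _ Q ih =>
    intro hQ0 hQ
    by_cases hdv : Q ∣ δ * ε
    · obtain ⟨c, hc'⟩ := hdv
      intro j hj i
      obtain ⟨q, hq⟩ := hQ j hj i
      exact ⟨q * c, by rw [hc', map_mul, map_mul, hq]; ring⟩
    obtain ⟨π, hπ, ⟨Q1, hQ1⟩, hstep⟩ := exists_prime_step A hQ0 (mul_ne_zero hδ0 hε) hdv
    have hW : ∀ j i, ∃ q, j ∈ D → ι' q = ι' Q * e.repr (w j) i := fun j i => by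
      by_cases hj : j ∈ D
      · exact (hQ j hj i).imp fun _ h _ => h
      · exact ⟨0, fun h => absurd h hj⟩
    choose W hW using hW
    let Z : K := algebraMap A K Q * (algebraMap A K ε * B) +
      ∑ j ∈ D, algebraMap A K ε * a j * (algebraMap A K Q * w j)
    have hZ : IsIntegral A Z :=
      (isIntegral_algebraMap.mul hB).add (IsIntegral.sum _ fun j hj =>
        (isIntegral_algebraMap.mul (ha j)).mul (hint Q hQ j hj))
    have hZ2 : Z = algebraMap A K (Q * ε) * ∑ j ∈ D, algebraMap A K (τ j) * w j ^ N := by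
      rw [heq, map_mul, mul_add, mul_sum]
      exact congrArg₂ (· + ·) (by ring) (sum_congr rfl fun j _ => by ring)
    have hrep : ∀ x i, e'.repr (x ^ N) i = e.repr x i ^ N := by
      intro x i
      have h1 : x ^ N = ∑ i, (e.repr x i ^ N) • e' i := by
        conv_lhs => rw [← e.sum_repr x, hN, sum_pow_char_pow]
        exact sum_congr rfl fun i _ => by rw [_root_.smul_pow, he']
      rw [h1, e'.repr_sum_self]
    have hdiv : ∀ i, ∀ j ∈ D, π ∣ W j i := by
      intro i
      obtain ⟨R, hR⟩ := hc Z hZ i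
      obtain ⟨M, hM⟩ : ∃ M, N = M + 1 + 1 := ⟨N - 2, by omega⟩
      refine hA (fun j => W j i) π hπ ?_
      rw [show N - 1 = M + 1 by omega]
      refine hstep M _ R ?_
      apply IsFractionRing.injective A L
      rw [map_mul _ (Q ^ _), hR, hZ2, hsm, map_sum e'.repr,
        Finsupp.finsetSum_apply, map_mul, map_sum, mul_sum, mul_sum, mul_sum, mul_sum]
      refine sum_congr rfl fun j hj => ?_
      rw [hsm, hrep]
      have h1 := hW j i hj
      simp only [map_mul, map_pow, ι'] at h1 ⊢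
      rw [h1, hM]
      ring
    have hQ10 : Q1 ≠ 0 := by rintro rfl; exact hQ0 (by simpa using hQ1)
    refine ih Q1 ⟨hQ10, π, hπ.not_isUnit, by rw [hQ1, mul_comm]⟩ hQ10 fun j hj i => ?_
    obtain ⟨q, hq⟩ := hdiv i j hj
    refine ⟨q, mul_left_cancel₀ (a := ι' π)
      ((map_ne_zero_iff _ (IsFractionRing.injective A L)).2 hπ.ne_zero) ?_⟩
    rw [← map_mul, ← hq, hW j i hj, hQ1, map_mul, mul_assoc]
  obtain ⟨⟨Q, hQ⟩, hQ2⟩ := IsLocalization.exist_integer_multiples_of_finite
    (nonZeroDivisors A) (S := L) fun ji : D × s => e.repr (w ji.1) ji.2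
  refine hint _ (key Q (nonZeroDivisors.ne_zero hQ) fun j hj i => ?_)
  obtain ⟨q, hq⟩ := hQ2 (⟨j, hj⟩, i)
  exact ⟨q, by rw [hq, Algebra.smul_def]⟩

end Pool.Agent.MP_28f2cb_lc.H93
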